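import Pool.Agent.Q233.GE.Tau

/-! Project GE (MP_8a7b28_an): density of the branches, separation, the digit map. -/

set_option autoImplicit false

open MeasureTheory Set Filter Topology

namespace Pool.Agent.Q233.GE

/-- conclusion of the density statement -/
def DensAt (u u' : ℝ) : Prop := ∃ L : List ℕ, (∀ d ∈ L, d < 4) ∧
  ∃ p q : ℝ, 0 ≤ p ∧ p < q ∧ q ≤ 1 ∧ ∀ z ∈ Ioo p q, u < tauL L z ∧ tauL L z < u'

lemma DensAt.mono {u u' v v' : ℝ} (h : DensAt u u') (h1 : v ≤ u) (h2 : u' ≤ v') : DensAt v v' := by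
  obtain ⟨L, hL, p, q, hp, hpq, hq, H⟩ := h
  exact ⟨L, hL, p, q, hp, hpq, hq, fun z hz =>
    ⟨lt_of_le_of_lt h1 (H z hz).1, lt_of_lt_of_le (H z hz).2 h2⟩⟩

lemma densAt_lap0 {u u' : ℝ} (h : u < u') (h1 : 2 / 10 ≤ u) (h2 : u' ≤ 4 / 10) : DensAt u u' := by
  refine ⟨[3], by simp, (4 - 10 * u') / 2, (4 - 10 * u) / 2, by linarith, by linarith,
    by linarith, fun z hz => ?_⟩
  rw [tauL_cons_ge (by norm_num)]
  constructor <;> linarith [hz.1, hz.2]

lemma densAt_lap1 {u u' : ℝ} (h : u < u') (h1 : 6 / 10 ≤ u) (h2 : u' ≤ 8 / 10) : DensAt u u' := by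
  refine ⟨[], by simp, (8 - 10 * u') / 2, (8 - 10 * u) / 2, by linarith, by linarith,
    by linarith, fun z hz => ?_⟩
  rw [tauL_nil]
  constructor <;> linarith [hz.1, hz.2]

lemma densAt_column {u u' : ℝ} (e h : ℕ) (he : e < 3) (hh : h < 2)
    (H : DensAt (10 * u - (4 * e + h)) (10 * u' - (4 * e + h))) : DensAt u u' := by
  obtain ⟨L, hL, p, q, hp, hpq, hq, H⟩ := H
  have hh' : (h : ℝ) ≤ 1 := by
    have : h ≤ 1 := by omega
    exact_mod_cast this
  have hh0 : (0 : ℝ) ≤ (h : ℝ) := Nat.cast_nonneg _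
  refine ⟨e :: L, ?_, (h + p) / 2, (h + q) / 2, by positivity, by linarith, by linarith, ?_⟩
  · intro d hd
    rcases List.mem_cons.mp hd with rfl | hd
    · omega
    · exact hL d hd
  · intro z hz
    have hfl : ⌊2 * z⌋₊ = h := by
      rw [Nat.floor_eq_iff (by linarith [hz.1])]
      constructor <;> linarith [hz.1, hz.2]
    have hz01 : z ∈ Ico (0 : ℝ) 1 := ⟨by linarith [hz.1], by linarith [hz.2]⟩
    rw [tauL_cons_lt he, fract_two hz01, hfl]
    have := H (2 * z - h) ⟨by linarith [hz.1], by linarith [hz.2]⟩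
    constructor <;> linarith [this.1, this.2]

theorem dens : S_dens := by
  have key : ∀ k : ℕ, ∀ u u' : ℝ, 0 ≤ u → u < u' → u' ≤ 1 → (1 / 5 : ℝ) ^ k ≤ u' - u →
      DensAt u u' := by
    intro k
    induction k with
    | zero =>
      intro u u' h0 h h1 hk
      have hu : u = 0 := by simp at hk; linarith
      have hu' : u' = 1 := by simp at hk; linarith
      subst hu hu'
      exact (densAt_lap0 (u := 2 / 10) (u' := 4 / 10) (by norm_num) le_rfl le_rfl).mono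
        (by norm_num) (by norm_num)
    | succ k ih =>
      intro u u' h0 h h1 hk
      have hk5 : (1 / 5 : ℝ) ^ (k + 1) = (1 / 5) ^ k / 5 := by rw [pow_succ]; ring
      rw [hk5] at hk
      -- one column
      have col : ∀ (e h : ℕ), e < 3 → h < 2 → ∀ v v' : ℝ, (4 * e + h : ℝ) / 10 ≤ v → v < v' →
          v' ≤ (4 * e + h + 1 : ℝ) / 10 → (1 / 5 : ℝ) ^ k / 10 ≤ v' - v → DensAt v v' := by
        intro e h he hh v v' hv hvv hv' hl
        refine densAt_column e h he hh (ih _ _ ?_ ?_ ?_ ?_) <;> linarith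
      -- two adjacent columns
      have col2 : ∀ e : ℕ, e < 3 → ∀ v v' : ℝ, (4 * e : ℝ) / 10 ≤ v → v < v' →
          v' ≤ (4 * e + 2 : ℝ) / 10 → (1 / 5 : ℝ) ^ k / 5 ≤ v' - v → DensAt v v' := by
        intro e he v v' hv hvv hv' hl
        have hpos : (0 : ℝ) < (1 / 5) ^ k := by positivity
        have c0 := col e 0 he (by norm_num)
        have c1 := col e 1 he (by norm_num)
        push_cast at c0 c1
        rcases le_or_gt v' ((4 * e + 1 : ℝ) / 10) with hc | hc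
        · exact c0 v v' (by linarith) hvv (by linarith) (by linarith)
        rcases le_or_gt ((4 * e + 1 : ℝ) / 10) v with hc' | hc'
        · exact c1 v v' (by linarith) hvv (by linarith) (by linarith)
        rcases le_or_gt (v' - (4 * e + 1 : ℝ) / 10) ((4 * e + 1 : ℝ) / 10 - v) with hm | hm
        · exact (c0 v ((4 * e + 1 : ℝ) / 10) (by linarith) hc' (by linarith) (by linarith)).mono
            le_rfl hc.le
        · exact (c1 ((4 * e + 1 : ℝ) / 10) v' (by linarith) hc (by linarith) (by linarith)).mono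
            hc'.le le_rfl
      have c0 := col2 0 (by norm_num)
      have c1 := col2 1 (by norm_num)
      have c2 := col2 2 (by norm_num)
      push_cast at c0 c1 c2
      rcases le_or_gt u' (2 / 10) with g1 | g1
      · exact c0 u u' (by linarith) h (by linarith) hk
      rcases lt_or_ge u (4 / 10) with g2 | g2
      · -- meets the first lap
        exact (densAt_lap0 (u := max u (2 / 10)) (u' := min u' (4 / 10))
          (lt_min (max_lt h g1) (max_lt g2 (by norm_num))) (le_max_right _ _)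
          (min_le_right _ _)).mono (le_max_left _ _) (min_le_left _ _)
      rcases le_or_gt u' (6 / 10) with g3 | g3
      · exact c1 u u' (by linarith) h (by linarith) hk
      rcases lt_or_ge u (8 / 10) with g4 | g4
      · exact (densAt_lap1 (u := max u (6 / 10)) (u' := min u' (8 / 10))
          (lt_min (max_lt h g3) (max_lt g4 (by norm_num))) (le_max_right _ _)
          (min_le_right _ _)).mono (le_max_left _ _) (min_le_left _ _)
      · exact c2 u u' (by linarith) h (by linarith) hk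
  intro u u' h0 h h1
  obtain ⟨k, hk⟩ := exists_pow_lt_of_lt_one (x := u' - u) (y := 1 / 5) (by linarith) (by norm_num)
  exact key k u u' h0 h h1 hk.le

/-! ### The digit map -/

/-- digit map -/
noncomputable def XX (a : ℝ) : ℝ := ∑' k : ℕ, ((⌊2 ^ (k + 1) * a⌋₊ % 2 : ℕ) : ℝ) * (1 / 10) ^ (k + 1)

lemma XX_term_nonneg (a : ℝ) (k : ℕ) :
    0 ≤ ((⌊2 ^ (k + 1) * a⌋₊ % 2 : ℕ) : ℝ) * (1 / 10 : ℝ) ^ (k + 1) := by positivity

lemma XX_term_le (a : ℝ) (k : ℕ) :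
    ((⌊2 ^ (k + 1) * a⌋₊ % 2 : ℕ) : ℝ) * (1 / 10 : ℝ) ^ (k + 1) ≤ (1 / 10 : ℝ) ^ k * (1 / 10) := by
  have h1 : ⌊2 ^ (k + 1) * a⌋₊ % 2 ≤ 1 := by omega
  have h2 : ((⌊2 ^ (k + 1) * a⌋₊ % 2 : ℕ) : ℝ) ≤ 1 := by exact_mod_cast h1
  rw [pow_succ (1 / 10 : ℝ) k]
  have h3 : (0 : ℝ) ≤ (1 / 10 : ℝ) ^ k * (1 / 10) := by positivity
  exact mul_le_of_le_one_left h3 h2

lemma summable_tenth : Summable (fun k : ℕ => (1 / 10 : ℝ) ^ k * (1 / 10)) :=
  (summable_geometric_of_lt_one (by norm_num) (by norm_num)).mul_right _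

lemma summable_XX (a : ℝ) :
    Summable (fun k : ℕ => ((⌊2 ^ (k + 1) * a⌋₊ % 2 : ℕ) : ℝ) * (1 / 10 : ℝ) ^ (k + 1)) :=
  Summable.of_nonneg_of_le (XX_term_nonneg a) (XX_term_le a) summable_tenth

lemma XX_le (a : ℝ) : XX a ≤ 1 / 9 := by
  have h1 : XX a ≤ ∑' k : ℕ, (1 / 10 : ℝ) ^ k * (1 / 10) :=
    (summable_XX a).tsum_le_tsum (XX_term_le a) summable_tenth
  have h2 : ∑' k : ℕ, (1 / 10 : ℝ) ^ k * (1 / 10) = 1 / 9 := by
    rw [tsum_mul_right, tsum_geometric_of_lt_one (by norm_num) (by norm_num)]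
    norm_num
  linarith

lemma XX_rec {a : ℝ} (ha : a ∈ Ico (0 : ℝ) 1) :
    XX a = ((⌊2 * a⌋₊ : ℝ) + XX (Int.fract (2 * a))) / 10 := by
  have h1 : XX a = ((⌊2 ^ (0 + 1) * a⌋₊ % 2 : ℕ) : ℝ) * (1 / 10 : ℝ) ^ (0 + 1) +
      ∑' k : ℕ, ((⌊2 ^ (k + 1 + 1) * a⌋₊ % 2 : ℕ) : ℝ) * (1 / 10 : ℝ) ^ (k + 1 + 1) :=
    (summable_XX a).tsum_eq_zero_add
  have h2 : ⌊2 * a⌋₊ % 2 = ⌊2 * a⌋₊ := Nat.mod_eq_of_lt (floor_two_lt ha)
  have h3 : ∀ k : ℕ, ((⌊2 ^ (k + 1 + 1) * a⌋₊ % 2 : ℕ) : ℝ) * (1 / 10 : ℝ) ^ (k + 1 + 1) =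
      ((⌊2 ^ (k + 1) * Int.fract (2 * a)⌋₊ % 2 : ℕ) : ℝ) * (1 / 10 : ℝ) ^ (k + 1) * (1 / 10) := by
    intro k
    have h4 : ⌊2 ^ (k + 1 + 1) * a⌋₊ % 2 = ⌊2 ^ (k + 1) * Int.fract (2 * a)⌋₊ % 2 := by
      have e : (2 : ℝ) ^ (k + 1 + 1) * a = 2 ^ (k + 1) * Int.fract (2 * a) +
          ((2 ^ (k + 1) * ⌊2 * a⌋₊ : ℕ) : ℝ) := by
        rw [fract_two ha]; push_cast; ring
      rw [e, Nat.floor_add_natCast (mul_nonneg (by positivity) (Int.fract_nonneg _))]
      have : 2 ^ (k + 1) * ⌊2 * a⌋₊ = 2 * (2 ^ k * ⌊2 * a⌋₊) := by ring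
      rw [this, Nat.add_mul_mod_self_left]
    rw [h4]; ring
  rw [h1, tsum_congr h3, tsum_mul_right]
  simp only [zero_add, pow_one]
  rw [h2]
  unfold XX
  ring

lemma measurable_XX : Measurable XX := by
  have hterm : ∀ k : ℕ, Measurable (fun a : ℝ =>
      ((⌊2 ^ (k + 1) * a⌋₊ % 2 : ℕ) : ℝ) * (1 / 10 : ℝ) ^ (k + 1)) := by
    intro k
    have h1 : Measurable (fun a : ℝ => ⌊2 ^ (k + 1) * a⌋₊) :=
      Nat.measurable_floor.comp (measurable_const.mul measurable_id)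
    exact ((Measurable.of_discrete (f := fun n : ℕ => ((n % 2 : ℕ) : ℝ))).comp h1).mul_const _
  refine measurable_of_tendsto_metrizable
    (f := fun n : ℕ => fun a => ∑ k ∈ Finset.range n,
      ((⌊2 ^ (k + 1) * a⌋₊ % 2 : ℕ) : ℝ) * (1 / 10 : ℝ) ^ (k + 1)) ?_ ?_
  · intro n
    exact Finset.measurable_fun_sum _ fun k _ => hterm k
  · rw [tendsto_pi_nhds]
    intro a
    exact (summable_XX a).hasSum.tendsto_sum_nat

theorem isDigitMap_XX : IsDigitMap XX :=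
  ⟨measurable_XX, fun a ha => ⟨tsum_nonneg (XX_term_nonneg a), XX_le a, XX_rec ha⟩⟩

theorem xmap : S_xmap := ⟨XX, isDigitMap_XX⟩

/-- recursion for the points of the Cantor set -/
lemma xab_rec {X : ℝ → ℝ} (hX : IsDigitMap X) {a b : ℝ} (ha : a ∈ Ico (0 : ℝ) 1)
    (hb : b ∈ Ico (0 : ℝ) 1) : 4 * X a + X b = (4 * (⌊2 * a⌋₊ : ℝ) + (⌊2 * b⌋₊ : ℝ) +
      (4 * X (Int.fract (2 * a)) + X (Int.fract (2 * b)))) / 10 := by
  have h1 := (hX.2 a ha).2.2
  have h2 := (hX.2 b hb).2.2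
  linarith

lemma xab_mem {X : ℝ → ℝ} (hX : IsDigitMap X) {a b : ℝ} (ha : a ∈ Ico (0 : ℝ) 1)
    (hb : b ∈ Ico (0 : ℝ) 1) : 0 ≤ 4 * X a + X b ∧ 4 * X a + X b ≤ 5 / 9 := by
  have h1 := hX.2 a ha
  have h2 := hX.2 b hb
  constructor <;> linarith [h1.1, h1.2.1, h2.1, h2.2.1]

theorem xG : S_xG := by
  intro G X hG hX
  have key : ∀ n : ℕ, ∀ a ∈ Ico (0 : ℝ) 1, ∀ b ∈ Ico (0 : ℝ) 1,
      |G (4 * X a + X b) - b| ≤ (1 / 2 : ℝ) ^ n := by
    intro n
    induction n with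
    | zero =>
      intro a ha b hb
      have h1 := xab_mem hX ha hb
      have h2 := hG.2.1 (4 * X a + X b) ⟨h1.1, by linarith [h1.2]⟩
      rw [pow_zero, abs_le]
      constructor <;> linarith [h2.1, h2.2, hb.1, hb.2]
    | succ n ih =>
      intro a ha b hb
      have h1 := ih _ (fract_mem (2 * a)) _ (fract_mem (2 * b))
      have h2 := xab_mem hX (fract_mem (2 * a)) (fract_mem (2 * b))
      have h3 := hG.2.2.1 ⌊2 * a⌋₊ ⌊2 * b⌋₊ (by have := floor_two_lt ha; omega) (floor_two_lt hb)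
        (4 * X (Int.fract (2 * a)) + X (Int.fract (2 * b))) ⟨h2.1, by linarith [h2.2]⟩
      rw [xab_rec hX ha hb, h3]
      have h4 := fract_two hb
      have e : (((⌊2 * b⌋₊ : ℕ) : ℝ) + G (4 * X (Int.fract (2 * a)) + X (Int.fract (2 * b)))) / 2 - b
          = (G (4 * X (Int.fract (2 * a)) + X (Int.fract (2 * b))) - Int.fract (2 * b)) / 2 := by
        rw [h4]; ring
      rw [e, abs_div, abs_of_pos (by norm_num : (0 : ℝ) < 2), pow_succ]
      linarith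
  intro a ha b hb
  have h0 : |G (4 * X a + X b) - b| ≤ 0 := by
    refine le_of_forall_pos_le_add fun ε hε => ?_
    obtain ⟨n, hn⟩ := exists_pow_lt_of_lt_one hε (by norm_num : (1 / 2 : ℝ) < 1)
    linarith [key n a ha b hb]
  have h1 : G (4 * X a + X b) - b = 0 := abs_nonpos_iff.mp h0
  linarith

/-- first digits differ -/
lemma sep_first {X : ℝ → ℝ} (hX : IsDigitMap X) {a b a' b' : ℝ} (ha : a ∈ Ico (0 : ℝ) 1)
    (hb : b ∈ Ico (0 : ℝ) 1) (ha' : a' ∈ Ico (0 : ℝ) 1) (hb' : b' ∈ Ico (0 : ℝ) 1)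
    (h : 4 * ⌊2 * a⌋₊ + ⌊2 * b⌋₊ < 4 * ⌊2 * a'⌋₊ + ⌊2 * b'⌋₊) (z : ℝ)
    (hz1 : ((⌊2 * b⌋₊ : ℕ) : ℝ) / 2 ≤ z) (hz2 : z < ((⌊2 * b⌋₊ : ℕ) + 1) / 2) :
    4 * X a + X b < tauL [⌊2 * a⌋₊] z ∧ tauL [⌊2 * a⌋₊] z ≤ 4 * X a' + X b' := by
  have hbl : ((⌊2 * b⌋₊ : ℕ) : ℝ) ≤ 1 := by
    have : ⌊2 * b⌋₊ ≤ 1 := by have := floor_two_lt hb; omega
    exact_mod_cast this
  have hb0 : (0 : ℝ) ≤ ((⌊2 * b⌋₊ : ℕ) : ℝ) := Nat.cast_nonneg _
  have hz : z ∈ Ico (0 : ℝ) 1 := ⟨by linarith, by linarith⟩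
  have hfl : ⌊2 * z⌋₊ = ⌊2 * b⌋₊ := by
    rw [Nat.floor_eq_iff (by linarith)]
    constructor <;> linarith
  have ha3 : ⌊2 * a⌋₊ < 3 := by have := floor_two_lt ha; omega
  rw [tauL_cons_lt ha3, tauL_nil, hfl, xab_rec hX ha hb, xab_rec hX ha' hb']
  have h1 := xab_mem hX (fract_mem (2 * a)) (fract_mem (2 * b))
  have h2 := xab_mem hX (fract_mem (2 * a')) (fract_mem (2 * b'))
  have hf := fract_mem (2 * z)
  have h3 : (4 * (⌊2 * a⌋₊ : ℝ) + (⌊2 * b⌋₊ : ℝ)) + 1 ≤ 4 * (⌊2 * a'⌋₊ : ℝ) + (⌊2 * b'⌋₊ : ℝ) := by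
    exact_mod_cast h
  constructor
  · linarith [h1.1, h1.2, hf.1, hf.2]
  · linarith [h2.1, h2.2, hf.1, hf.2]

theorem sep : S_sep := by
  intro X hX k
  induction k with
  | zero =>
    intro a ha b hb a' ha' b' hb' h
    exfalso
    apply h
    have key : ∀ w ∈ Ico (0 : ℝ) 1, ⌊2 ^ 0 * w⌋₊ = 0 := by
      intro w hw
      rw [Nat.floor_eq_zero]
      linarith [hw.2]
    rw [key a ha, key a' ha', key b hb, key b' hb']
    exact ⟨rfl, rfl⟩
  | succ k ih =>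
    intro a ha b hb a' ha' b' hb' h
    have hda := floor_two_lt ha
    have hda' := floor_two_lt ha'
    have hdb := floor_two_lt hb
    have hdb' := floor_two_lt hb'
    rcases lt_trichotomy (4 * ⌊2 * a⌋₊ + ⌊2 * b⌋₊) (4 * ⌊2 * a'⌋₊ + ⌊2 * b'⌋₊) with hlt | heq | hgt
    · refine ⟨[⌊2 * a⌋₊], by simp, by simp; omega, ⌊2 * b⌋₊, by simpa using hdb, fun z hz1 hz2 => ?_⟩
      simp only [List.length_singleton, pow_one] at hz1 hz2
      obtain ⟨h1, h2⟩ := sep_first hX ha hb ha' hb' hlt z hz1 hz2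
      exact ⟨lt_of_le_of_lt (min_le_left _ _) h1, h2.trans (le_max_right _ _)⟩
    · have e1 : ⌊2 * a⌋₊ = ⌊2 * a'⌋₊ := by omega
      have e2 : ⌊2 * b⌋₊ = ⌊2 * b'⌋₊ := by omega
      have hne : ¬ (⌊2 ^ k * Int.fract (2 * a)⌋₊ = ⌊2 ^ k * Int.fract (2 * a')⌋₊ ∧
          ⌊2 ^ k * Int.fract (2 * b)⌋₊ = ⌊2 ^ k * Int.fract (2 * b')⌋₊) := by
        rintro ⟨h1, h2⟩
        apply h
        have key : ∀ w ∈ Ico (0 : ℝ) 1, ⌊2 ^ (k + 1) * w⌋₊ =
            ⌊2 ^ k * Int.fract (2 * w)⌋₊ + 2 ^ k * ⌊2 * w⌋₊ := by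
          intro w hw
          have e : (2 : ℝ) ^ (k + 1) * w = 2 ^ k * Int.fract (2 * w) +
              ((2 ^ k * ⌊2 * w⌋₊ : ℕ) : ℝ) := by
            rw [fract_two hw]; push_cast; ring
          rw [e, Nat.floor_add_natCast (mul_nonneg (by positivity) (Int.fract_nonneg _))]
        rw [key a ha, key a' ha', key b hb, key b' hb', h1, h2, e1, e2]
        exact ⟨rfl, rfl⟩
      obtain ⟨L, hLk, hL4, i, hi, H⟩ := ih _ (fract_mem (2 * a)) _ (fract_mem (2 * b)) _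
        (fract_mem (2 * a')) _ (fract_mem (2 * b')) hne
      have ha3 : ⌊2 * a⌋₊ < 3 := by omega
      refine ⟨⌊2 * a⌋₊ :: L, by simpa using hLk, ?_, ⌊2 * b⌋₊ * 2 ^ L.length + i, ?_, ?_⟩
      · intro d hd
        rcases List.mem_cons.mp hd with rfl | hd
        · omega
        · exact hL4 d hd
      · rw [List.length_cons, pow_succ]
        nlinarith
      · intro z hz1 hz2
        rw [List.length_cons] at hz1 hz2
        have hp : (0 : ℝ) < 2 ^ L.length := by positivity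
        rw [div_le_iff₀ (by positivity)] at hz1
        rw [lt_div_iff₀ (by positivity)] at hz2
        push_cast at hz1 hz2
        rw [pow_succ] at hz1 hz2
        have hi' : (i : ℝ) + 1 ≤ 2 ^ L.length := by exact_mod_cast hi
        have hi0 : (0 : ℝ) ≤ (i : ℝ) := Nat.cast_nonneg _
        have hbl : ((⌊2 * b⌋₊ : ℕ) : ℝ) ≤ 1 := by
          have : ⌊2 * b⌋₊ ≤ 1 := by omega
          exact_mod_cast this
        have hb0 : (0 : ℝ) ≤ ((⌊2 * b⌋₊ : ℕ) : ℝ) := Nat.cast_nonneg _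
        have hfl : ⌊2 * z⌋₊ = ⌊2 * b⌋₊ := by
          rw [Nat.floor_eq_iff (by nlinarith)]
          constructor
          · nlinarith
          · nlinarith
        have hz : z ∈ Ico (0 : ℝ) 1 := by
          constructor
          · nlinarith
          · nlinarith
        have hfr := fract_two hz
        rw [hfl] at hfr
        obtain ⟨h1, h2⟩ := H (Int.fract (2 * z)) (by
          rw [div_le_iff₀ hp, hfr]; nlinarith) (by
          rw [lt_div_iff₀ hp, hfr]; nlinarith)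
        rw [tauL_cons_lt ha3, hfl, xab_rec hX ha hb, xab_rec hX ha' hb', ← e1, ← e2]
        rw [min_lt_iff] at h1
        rw [le_max_iff] at h2
        constructor
        · rw [min_lt_iff]
          rcases h1 with h1 | h1
          · left; linarith
          · right; linarith
        · rw [le_max_iff]
          rcases h2 with h2 | h2
          · left; linarith
          · right; linarith
    · refine ⟨[⌊2 * a'⌋₊], by simp, by simp; omega, ⌊2 * b'⌋₊, by simpa using hdb',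
        fun z hz1 hz2 => ?_⟩
      simp only [List.length_singleton, pow_one] at hz1 hz2
      obtain ⟨h1, h2⟩ := sep_first hX ha' hb' ha hb hgt z hz1 hz2
      exact ⟨lt_of_le_of_lt (min_le_right _ _) h1, h2.trans (le_max_left _ _)⟩

end Pool.Agent.Q233.GE
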