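import Pool.Agent.Q233.GE.Stm

/-! Project GE (MP_8a7b28_an): the dimension criterion (mass distribution principle). -/

set_option autoImplicit false

open MeasureTheory Set Filter Topology

open scoped ENNReal NNReal

namespace Pool.Agent.Q233.GE

/-- the numerical part: for small `δ > 0` there is `m` with `δ < (1/2)^(40(m+3))` and
`4 (1/2)^(m+2) δ ≤ δ^(1+1/80)` -/
lemma exists_scale {δ : ℝ} (h0 : 0 < δ) (h1 : δ ≤ (1 / 2) ^ 360) :
    ∃ m : ℕ, δ < (1 / 2) ^ (40 * (m + 2 + 1)) ∧ 4 * (1 / 2) ^ (m + 2) * δ ≤ δ ^ (1 + 1 / 80 : ℝ) := by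
  have hy0 : (0 : ℝ) < (1 / 2) ^ 40 := by positivity
  have hy1 : ((1 : ℝ) / 2) ^ 40 < 1 := by norm_num
  have hδ1 : δ ≤ 1 := h1.trans (pow_le_one₀ (by norm_num) (by norm_num))
  obtain ⟨n, hn1, hn2⟩ := exists_nat_pow_near_of_lt_one h0 hδ1 hy0 hy1
  rw [← pow_mul] at hn1 hn2
  have hn9 : 9 ≤ n := by
    by_contra hcon
    have h2 : (1 / 2 : ℝ) ^ 360 ≤ (1 / 2) ^ (40 * (n + 1)) :=
      pow_le_pow_of_le_one (by norm_num) (by norm_num) (by omega)
    linarith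
  obtain ⟨m, rfl⟩ : ∃ m, n = m + 4 := ⟨n - 4, by omega⟩
  refine ⟨m, ?_, ?_⟩
  · refine lt_of_le_of_lt hn2 ?_
    exact pow_lt_pow_right_of_lt_one₀ (by norm_num) (by norm_num) (by omega)
  · have e1 : 4 * (1 / 2 : ℝ) ^ (m + 2) = (1 / 2) ^ m := by rw [pow_add]; ring
    rw [e1]
    have h2 : ((1 / 2 : ℝ) ^ m) ^ 80 ≤ δ := by
      rw [← pow_mul]
      refine le_trans ?_ hn1.le
      exact pow_le_pow_of_le_one (by norm_num) (by norm_num) (by omega)
    have h3 : (1 / 2 : ℝ) ^ m ≤ δ ^ (1 / 80 : ℝ) := by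
      have h4 : (((1 / 2 : ℝ) ^ m) ^ 80) ^ (1 / 80 : ℝ) ≤ δ ^ (1 / 80 : ℝ) :=
        Real.rpow_le_rpow (by positivity) h2 (by norm_num)
      have h5 : (((1 / 2 : ℝ) ^ m) ^ 80) ^ (1 / 80 : ℝ) = (1 / 2 : ℝ) ^ m := by
        rw [← Real.rpow_natCast ((1 / 2 : ℝ) ^ m) 80, ← Real.rpow_mul (by positivity)]
        norm_num
      rwa [h5] at h4
    rw [Real.rpow_add h0, Real.rpow_one, mul_comm]
    exact mul_le_mul_of_nonneg_left h3 h0.le

/-- the square -/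
def Sq : Set (ℝ × ℝ) := Ico (0 : ℝ) 1 ×ˢ Ico (0 : ℝ) 1

lemma rect_bound {P : Set (ℝ × ℝ)} {A δ : ℝ} (hA : 0 ≤ A) (hδ : 0 ≤ δ)
    (h : ∀ p ∈ P, ∀ p' ∈ P, |p.1 - p'.1| ≤ A ∧ |p.2 - p'.2| ≤ δ) :
    volume P ≤ ENNReal.ofReal (4 * A * δ) := by
  rcases P.eq_empty_or_nonempty with rfl | ⟨p0, hp0⟩
  · simp
  have hsub : P ⊆ Icc (p0.1 - A) (p0.1 + A) ×ˢ Icc (p0.2 - δ) (p0.2 + δ) := by
    intro p hp
    obtain ⟨h1, h2⟩ := h p hp p0 hp0
    rw [abs_le] at h1 h2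
    refine ⟨⟨?_, ?_⟩, ⟨?_, ?_⟩⟩ <;> linarith [h1.1, h1.2, h2.1, h2.2]
  refine (measure_mono hsub).trans ?_
  rw [Measure.volume_eq_prod, Measure.prod_prod, Real.volume_Icc, Real.volume_Icc,
    ← ENNReal.ofReal_mul (by linarith)]
  apply ENNReal.ofReal_le_ofReal
  apply le_of_eq; ring

theorem dimCrit : S_dim := by
  intro Γ ξ hξ hΓ hH
  have hΦ : Measurable (fun p : ℝ × ℝ => (ξ p.1 p.2, p.2)) := hξ.prodMk measurable_snd
  set Φ : ℝ × ℝ → ℝ × ℝ := fun p => (ξ p.1 p.2, p.2) with hΦdef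
  have hSq : MeasurableSet Sq := measurableSet_Ico.prod measurableSet_Ico
  set μ : Measure (ℝ × ℝ) := (volume.restrict Sq).map Φ with hμ
  have hvolSq : volume Sq = 1 := by
    rw [Sq, Measure.volume_eq_prod, Measure.prod_prod, Real.volume_Ico]; simp
  -- the key estimate
  have hkey : ∀ s : Set (ℝ × ℝ), Metric.ediam s ≤ ENNReal.ofReal ((1 / 2) ^ 360) →
      μ s ≤ Metric.ediam s ^ (1 + 1 / 80 : ℝ) := by
    intro s hs
    have hfin : Metric.ediam s ≠ ∞ := ne_top_of_le_ne_top ENNReal.ofReal_ne_top hs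
    set δ := (Metric.ediam s).toReal with hδ
    have hδ0 : 0 ≤ δ := ENNReal.toReal_nonneg
    have hds : Metric.ediam s = ENNReal.ofReal δ := (ENNReal.ofReal_toReal hfin).symm
    have hδ1 : δ ≤ (1 / 2) ^ 360 := by
      rw [hds] at hs
      exact (ENNReal.ofReal_le_ofReal_iff (by positivity)).mp hs
    set P : Set (ℝ × ℝ) := Φ ⁻¹' (closure s) ∩ Sq with hP
    have h1 : μ s ≤ volume P := by
      calc μ s ≤ μ (closure s) := measure_mono subset_closure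
        _ = volume P := by
          rw [hμ, Measure.map_apply hΦ isClosed_closure.measurableSet,
            Measure.restrict_apply (hΦ isClosed_closure.measurableSet)]
    have hcl : ∀ p ∈ P, ∀ p' ∈ P, |ξ p.1 p.2 - ξ p'.1 p'.2| ≤ δ ∧ |p.2 - p'.2| ≤ δ := by
      intro p hp p' hp'
      have h2 : edist (Φ p) (Φ p') ≤ Metric.ediam (closure s) :=
        Metric.edist_le_ediam_of_mem hp.1 hp'.1
      rw [Metric.ediam_closure, hds, edist_dist] at h2
      have h3 : dist (Φ p) (Φ p') ≤ δ := (ENNReal.ofReal_le_ofReal_iff hδ0).mp h2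
      rw [Prod.dist_eq, max_le_iff, Real.dist_eq, Real.dist_eq] at h3
      exact h3
    have hA : ∀ k : ℕ, δ < (1 / 2) ^ (40 * (k + 1)) →
        volume P ≤ ENNReal.ofReal (4 * (1 / 2) ^ k * δ) := by
      intro k hk
      refine rect_bound (by positivity) hδ0 fun p hp p' hp' => ?_
      obtain ⟨h2, h3⟩ := hcl p hp p' hp'
      exact ⟨hH k _ hp.2.1 _ hp.2.2 _ hp'.2.1 _ hp'.2.2 (lt_of_le_of_lt h2 hk), h3⟩
    rcases eq_or_lt_of_le hδ0 with hz | hz
    · have h2 := hA 0 (by rw [← hz]; positivity)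
      rw [← hz] at h2
      simp only [mul_zero, ENNReal.ofReal_zero] at h2
      exact (h1.trans h2).trans zero_le
    · obtain ⟨m, hm1, hm2⟩ := exists_scale hz hδ1
      refine h1.trans ((hA (m + 2) hm1).trans ?_)
      rw [hds, ENNReal.ofReal_rpow_of_pos hz]
      exact ENNReal.ofReal_le_ofReal hm2
  have hle := Measure.le_hausdorffMeasure (1 + 1 / 80 : ℝ) μ (ENNReal.ofReal ((1 / 2) ^ 360))
    (by rw [ENNReal.ofReal_pos]; positivity) hkey
  have hμΓ : 1 ≤ μ Γ := by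
    calc (1 : ℝ≥0∞) = volume Sq := hvolSq.symm
      _ = (volume.restrict Sq) Sq := by rw [Measure.restrict_apply_self]
      _ ≤ (volume.restrict Sq) (Φ ⁻¹' Γ) := by
          apply measure_mono
          intro p hp
          exact hΓ _ hp.1 _ hp.2
      _ ≤ μ Γ := Measure.le_map_apply hΦ.aemeasurable Γ
  have hH1 : (1 : ℝ≥0∞) ≤ Measure.hausdorffMeasure (1 + 1 / 80 : ℝ) Γ := hμΓ.trans (hle Γ)
  set d : ℝ≥0 := 1 + 1 / 80 with hd
  have hdc : ((d : ℝ≥0) : ℝ) = 1 + 1 / 80 := by rw [hd]; push_cast; ring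
  have hne : Measure.hausdorffMeasure (d : ℝ) Γ ≠ 0 := by
    rw [hdc]
    intro h0
    rw [h0] at hH1
    exact absurd hH1 (by norm_num)
  have h2 := le_dimH_of_hausdorffMeasure_ne_zero hne
  refine lt_of_lt_of_le ?_ h2
  have : (1 : ℝ≥0) < d := by rw [hd]; exact lt_add_of_pos_right 1 (by positivity)
  exact_mod_cast this

end Pool.Agent.Q233.GE
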