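import Pool.Agent.Q233.GE.Stm

/-! Assembly of project GE (MP_8a7b28_an): the reparametrisation of the model function. -/

set_option autoImplicit false

open MeasureTheory Set Filter Topology

namespace Pool.Agent.Q233.GE

/-- mass of the section to the left of `u` -/
noncomputable def m0 (u : ℝ) : ℝ := volume.real {z : ℝ | z ∈ Ico (0 : ℝ) 1 ∧ tau z ≤ u}

/-- `m0` extended to a homeomorphism of the line -/
noncomputable def MM (u : ℝ) : ℝ := m0 u + min u 0 + max (u - 1) 0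

lemma vol_ne_top {S : Set ℝ} (h : S ⊆ Ico (0 : ℝ) 1) : volume S ≠ ⊤ := by
  refine ne_top_of_le_ne_top ?_ (measure_mono h)
  simp

lemma measurableSet_le (hm : Measurable tau) (u : ℝ) :
    MeasurableSet {z : ℝ | z ∈ Ico (0 : ℝ) 1 ∧ tau z ≤ u} :=
  measurableSet_Ico.inter (hm measurableSet_Iic)

lemma m0_sub (hm : Measurable tau) {u u' : ℝ} (h : u ≤ u') :
    m0 u' - m0 u = volume.real {z : ℝ | z ∈ Ico (0 : ℝ) 1 ∧ u < tau z ∧ tau z ≤ u'} := by
  have h1 : {z : ℝ | z ∈ Ico (0 : ℝ) 1 ∧ tau z ≤ u'} =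
      {z : ℝ | z ∈ Ico (0 : ℝ) 1 ∧ tau z ≤ u} ∪
        {z : ℝ | z ∈ Ico (0 : ℝ) 1 ∧ u < tau z ∧ tau z ≤ u'} := by
    ext z
    simp only [mem_setOf_eq, mem_union]
    constructor
    · rintro ⟨h1, h2⟩
      rcases le_or_gt (tau z) u with h3 | h3
      · exact Or.inl ⟨h1, h3⟩
      · exact Or.inr ⟨h1, h3, h2⟩
    · rintro (⟨h1, h2⟩ | ⟨h1, _, h2⟩)
      · exact ⟨h1, h2.trans h⟩
      · exact ⟨h1, h2⟩
  have h2 : Disjoint {z : ℝ | z ∈ Ico (0 : ℝ) 1 ∧ tau z ≤ u}
      {z : ℝ | z ∈ Ico (0 : ℝ) 1 ∧ u < tau z ∧ tau z ≤ u'} := by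
    rw [Set.disjoint_left]
    rintro z ⟨_, hz⟩ ⟨_, hz', _⟩
    exact absurd hz (not_le.mpr hz')
  have h3 : MeasurableSet {z : ℝ | z ∈ Ico (0 : ℝ) 1 ∧ u < tau z ∧ tau z ≤ u'} :=
    measurableSet_Ico.inter ((hm measurableSet_Ioi).inter (hm measurableSet_Iic))
  unfold m0
  rw [h1, measureReal_union h2 h3 (vol_ne_top fun z hz => hz.1) (vol_ne_top fun z hz => hz.1)]
  ring

lemma m0_mono (hm : Measurable tau) : Monotone m0 := by
  intro u u' h
  have := m0_sub hm h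
  have h2 : 0 ≤ volume.real {z : ℝ | z ∈ Ico (0 : ℝ) 1 ∧ u < tau z ∧ tau z ≤ u'} :=
    measureReal_nonneg
  linarith

lemma m0_sub_le (hm : Measurable tau) {u u' p q : ℝ} (h : u ≤ u') (hpq : p ≤ q)
    (H : ∀ z ∈ Ico (0 : ℝ) 1, u < tau z → tau z ≤ u' → z ∈ Icc p q) :
    m0 u' - m0 u ≤ q - p := by
  rw [m0_sub hm h]
  calc volume.real {z : ℝ | z ∈ Ico (0 : ℝ) 1 ∧ u < tau z ∧ tau z ≤ u'}
      ≤ volume.real (Icc p q) := measureReal_mono (fun z hz => H z hz.1 hz.2.1 hz.2.2) (by simp)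
    _ = q - p := by rw [Real.volume_real_Icc_of_le hpq]

lemma m0_of_nonpos (hr : S_tauRange) {u : ℝ} (hu : u ≤ 0) : m0 u = 0 := by
  have : {z : ℝ | z ∈ Ico (0 : ℝ) 1 ∧ tau z ≤ u} = ∅ := by
    ext z
    simp only [mem_setOf_eq, mem_empty_iff_false, iff_false, not_and, not_le]
    intro hz
    exact lt_of_le_of_lt hu (hr _ z hz).1
  rw [m0, this]; simp

lemma m0_of_one_le (hr : S_tauRange) {u : ℝ} (hu : 1 ≤ u) : m0 u = 1 := by
  have : {z : ℝ | z ∈ Ico (0 : ℝ) 1 ∧ tau z ≤ u} = Ico 0 1 := by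
    ext z
    simp only [mem_setOf_eq, and_iff_left_iff_imp]
    intro hz
    exact ((hr _ z hz).2.le).trans hu
  rw [m0, this]; simp

lemma m0_continuous (hm : Measurable tau) (hg : S_tauG) {G : ℝ → ℝ} (hG : IsModel G) :
    Continuous m0 := by
  rw [Metric.continuous_iff]
  intro u ε hε
  obtain ⟨δ, hδ, H⟩ := Metric.continuous_iff.mp hG.1 u (ε / 4) (by positivity)
  refine ⟨δ, hδ, fun v hv => ?_⟩
  have key : ∀ a b : ℝ, a ≤ b → dist a u < δ → dist b u < δ → m0 b - m0 a ≤ ε / 2 := by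
    intro a b hab ha hb
    have := m0_sub_le hm (p := G u - ε / 4) (q := G u + ε / 4) hab (by linarith) ?_
    · linarith
    · intro z hz h1 h2
      have h3 : dist (tau z) u < δ := by
        rw [Real.dist_eq] at ha hb ⊢
        rw [abs_lt] at ha hb ⊢
        constructor <;> linarith [ha.1, ha.2, hb.1, hb.2]
      have h4 := H _ h3
      have h5 : G (tau z) = z := hg G hG _ z hz
      rw [h5, Real.dist_eq, abs_lt] at h4
      constructor <;> linarith [h4.1, h4.2]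
  have hu : dist u u < δ := by simpa using hδ
  rw [Real.dist_eq, abs_lt]
  rcases le_total v u with h | h
  · have h1 := key v u h hv hu
    have h2 := m0_mono hm h
    constructor <;> linarith
  · have h1 := key u v h hu hv
    have h2 := m0_mono hm h
    constructor <;> linarith

/-- code of a word -/
lemma exists_code (L : List ℕ) (hL : ∀ d ∈ L, d < 4) :
    ∃ n : ℕ, n < 4 ^ (L.length + 1) ∧ dec n = L := by
  refine ⟨Nat.ofDigits 4 (L ++ [1]), ?_, ?_⟩
  · have := Nat.ofDigits_lt_base_pow_length (b := 4) (l := L ++ [1]) (by norm_num) (by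
      intro x hx
      rcases List.mem_append.mp hx with h | h
      · exact hL x h
      · simp at h; omega)
    simpa using this
  · unfold dec
    rw [Nat.digits_ofDigits 4 (by norm_num)]
    · simp
    · intro x hx
      rcases List.mem_append.mp hx with h | h
      · exact hL x h
      · simp at h; omega
    · intro h; simp

lemma label_mass (hm : Measurable tau) (hs : S_sela) {u u' : ℝ} (h : u ≤ u') (L : List ℕ)
    (hL : ∀ d ∈ L, d < 4) (k i : ℕ) (hk : L.length ≤ k) (hi : i < 2 ^ k)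
    (H : ∀ z : ℝ, (i : ℝ) / 2 ^ k ≤ z → z < (i + 1) / 2 ^ k → u < tauL L z ∧ tauL L z ≤ u') :
    (1 / 2 : ℝ) ^ (40 * (k + 1)) ≤ m0 u' - m0 u := by
  obtain ⟨n, hn, hdec⟩ := exists_code L hL
  have hn' : n < 4 ^ (k + 1) := lt_of_lt_of_le hn (Nat.pow_le_pow_right (by norm_num) (by omega))
  have h1 := hs k i n hi hn'
  rw [m0_sub hm h]
  have hsub : {z : ℝ | (i : ℝ) / 2 ^ k ≤ z ∧ z < (i + 1) / 2 ^ k ∧ sig z = n} ⊆
      {z : ℝ | z ∈ Ico (0 : ℝ) 1 ∧ u < tau z ∧ tau z ≤ u'} := by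
    rintro z ⟨hz1, hz2, hz3⟩
    have h2k : (0 : ℝ) < 2 ^ k := by positivity
    have hi' : (i : ℝ) + 1 ≤ 2 ^ k := by exact_mod_cast hi
    refine ⟨⟨le_trans (by positivity) hz1, lt_of_lt_of_le hz2 ?_⟩, ?_⟩
    · rw [div_le_one h2k]; exact hi'
    · have : tau z = tauL L z := by rw [tau, hz3, hdec]
      rw [this]
      exact H z hz1 hz2
  have h2 := h1.trans (measure_mono hsub)
  have hfin : volume {z : ℝ | z ∈ Ico (0 : ℝ) 1 ∧ u < tau z ∧ tau z ≤ u'} ≠ ⊤ :=
    vol_ne_top fun z hz => hz.1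
  rw [Measure.real]
  have h3 := (ENNReal.ofReal_le_iff_le_toReal hfin).mp h2
  exact h3

lemma m0_strict (hm : Measurable tau) (hs : S_sela) (hd : S_dens) {u u' : ℝ} (h0 : 0 ≤ u)
    (h : u < u') (h1 : u' ≤ 1) : m0 u < m0 u' := by
  obtain ⟨L, hL, p, q, hp, hpq, hq, H⟩ := hd u u' h0 h h1
  -- a dyadic interval inside (p,q)
  obtain ⟨k0, hk0⟩ : ∃ k0 : ℕ, (1 / 2 : ℝ) ^ k0 < (q - p) / 3 :=
    exists_pow_lt_of_lt_one (by linarith) (by norm_num)
  set k := max k0 L.length with hk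
  have hk1 : (1 / 2 : ℝ) ^ k < (q - p) / 3 :=
    lt_of_le_of_lt (pow_le_pow_of_le_one (by norm_num) (by norm_num) (le_max_left _ _)) hk0
  have h2k : (0 : ℝ) < 2 ^ k := by positivity
  set i := ⌊2 ^ k * p⌋₊ + 1 with hi
  have e1 : (1 / 2 : ℝ) ^ k = 1 / 2 ^ k := by rw [one_div_pow]
  rw [e1] at hk1
  have f1 : (⌊2 ^ k * p⌋₊ : ℝ) ≤ 2 ^ k * p := Nat.floor_le (by positivity)
  have f2 : (2 : ℝ) ^ k * p < ⌊2 ^ k * p⌋₊ + 1 := Nat.lt_floor_add_one _
  have f3 : (i : ℝ) = ⌊2 ^ k * p⌋₊ + 1 := by rw [hi]; push_cast; ring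
  have hk2 : 1 < 2 ^ k * ((q - p) / 3) := by
    rw [div_lt_iff₀ h2k] at hk1; linarith
  have f4 : ((i : ℝ) + 1) < 2 ^ k * q := by
    rw [f3]; nlinarith
  have hi2 : i < 2 ^ k := by
    have : ((i : ℝ)) < 2 ^ k := by nlinarith
    exact_mod_cast this
  have := label_mass hm hs h.le L hL k i (le_max_right _ _) hi2 (by
    intro z hz1 hz2
    have hz3 : z ∈ Ioo p q := by
      constructor
      · refine lt_of_lt_of_le ?_ hz1
        rw [lt_div_iff₀ h2k, f3]; linarith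
      · refine lt_trans hz2 ?_
        rw [div_lt_iff₀ h2k]; linarith
    exact ⟨(H z hz3).1, (H z hz3).2.le⟩)
  have hpos : (0 : ℝ) < (1 / 2) ^ (40 * (k + 1)) := by positivity
  linarith

lemma MM_strictMono (hm : Measurable tau) (hs : S_sela) (hd : S_dens) : StrictMono MM := by
  intro u u' h
  have h1 := m0_mono hm h.le
  have h2 : min u 0 ≤ min u' 0 := min_le_min_right _ h.le
  have h3 : max (u - 1) 0 ≤ max (u' - 1) 0 := max_le_max_right _ (by linarith)
  unfold MM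
  rcases lt_or_ge u 0 with h4 | h4
  · have : min u 0 < min u' 0 := by
      rw [min_eq_left h4.le]
      exact lt_min h h4
    linarith
  · rcases lt_or_ge 1 u' with h5 | h5
    · have : max (u - 1) 0 < max (u' - 1) 0 := by
        rw [max_eq_left (a := u' - 1) (by linarith)]
        exact max_lt (by linarith) (by linarith)
      linarith
    · have := m0_strict hm hs hd h4 h h5
      linarith

lemma MM_continuous (hm : Measurable tau) (hg : S_tauG) {G : ℝ → ℝ} (hG : IsModel G) :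
    Continuous MM := by
  have := m0_continuous hm hg hG
  unfold MM
  fun_prop

lemma MM_of_mem {u : ℝ} (h0 : 0 ≤ u) (h1 : u ≤ 1) : MM u = m0 u := by
  unfold MM
  rw [min_eq_right h0, max_eq_right (by linarith)]
  ring

lemma MM_neg (hr : S_tauRange) {u : ℝ} (h0 : u ≤ 0) : MM u = u := by
  unfold MM
  rw [m0_of_nonpos hr h0, min_eq_left h0, max_eq_right (by linarith)]
  ring

lemma MM_big (hr : S_tauRange) {u : ℝ} (h0 : 1 ≤ u) : MM u = u := by
  unfold MM
  rw [m0_of_one_le hr h0, min_eq_right (by linarith), max_eq_left (by linarith)]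
  ring

lemma MM_surjective (hm : Measurable tau) (hg : S_tauG) (hr : S_tauRange) {G : ℝ → ℝ}
    (hG : IsModel G) : Function.Surjective MM := by
  refine (MM_continuous hm hg hG).surjective ?_ ?_
  · refine tendsto_atTop_mono' atTop ?_ tendsto_id
    filter_upwards [eventually_ge_atTop (1 : ℝ)] with u hu
    rw [MM_big hr hu]; rfl
  · refine tendsto_atBot_mono' atBot ?_ tendsto_id
    filter_upwards [eventually_le_atBot (0 : ℝ)] with u hu
    rw [MM_neg hr hu]; rfl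

end Pool.Agent.Q233.GE
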