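import Pool.Agent.Q233.GE.Asm

/-! Assembly of project GE (MP_8a7b28_an), second part: the map `f` and its properties. -/

set_option autoImplicit false

open MeasureTheory Set Filter Topology

namespace Pool.Agent.Q233.GE

/-- a left inverse of `MM` with all the properties needed -/
lemma exists_inverse (hm : Measurable tau) (hs : S_sela) (hd : S_dens) (hg : S_tauG)
    (hr : S_tauRange) {G : ℝ → ℝ} (hG : IsModel G) :
    ∃ N : ℝ → ℝ, Continuous N ∧ (∀ u, N (MM u) = u) ∧ (∀ x, MM (N x) = x) ∧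
      (∀ u x, MM u ≤ x ↔ u ≤ N x) := by
  let e := StrictMono.orderIsoOfSurjective MM (MM_strictMono hm hs hd) (MM_surjective hm hg hr hG)
  have he : ∀ u, e u = MM u := fun u => rfl
  refine ⟨e.symm, e.symm.continuous, fun u => ?_, fun x => ?_, fun u x => ?_⟩
  · rw [← he, e.symm_apply_apply]
  · rw [← he, e.apply_symm_apply]
  · rw [← he, e.le_symm_apply]

/-- everything about the reparametrised map, on the line -/
structure Data (G N : ℝ → ℝ) : Prop where
  meas : Measurable tau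
  range : S_tauRange
  tauG : S_tauG
  sela : S_sela
  model : IsModel G
  MMcont : Continuous MM
  Ncont : Continuous N
  NM : ∀ u, N (MM u) = u
  MN : ∀ x, MM (N x) = x
  gal : ∀ u x, MM u ≤ x ↔ u ≤ N x

namespace Data

variable {G N : ℝ → ℝ} (D : Data G N)

include D

lemma tau_mem {z : ℝ} (hz : z ∈ Ico (0 : ℝ) 1) : 0 < tau z ∧ tau z < 1 := D.range _ z hz

lemma G_tau {z : ℝ} (hz : z ∈ Ico (0 : ℝ) 1) : G (tau z) = z := D.tauG G D.model _ z hz

lemma MM0 : MM 0 = 0 := MM_neg D.range le_rfl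

lemma MM1 : MM 1 = 1 := MM_big D.range le_rfl

lemma N0 : N 0 = 0 := by
  have := D.NM 0; rwa [D.MM0] at this

lemma N1 : N 1 = 1 := by
  have := D.NM 1; rwa [D.MM1] at this

lemma N_mono : Monotone N := by
  intro x y h
  rw [← D.gal, D.MN]; exact h

lemma N_mem {x : ℝ} (hx : x ∈ Icc (0 : ℝ) 1) : N x ∈ Icc (0 : ℝ) 1 := by
  constructor
  · rw [← D.N0]; exact D.N_mono hx.1
  · rw [← D.N1]; exact D.N_mono hx.2

lemma MM_mono : Monotone MM := by
  intro u v h
  rw [D.gal, D.NM]; exact h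

lemma MM_mem {u : ℝ} (hu : u ∈ Icc (0 : ℝ) 1) : MM u ∈ Icc (0 : ℝ) 1 := by
  constructor
  · rw [← D.MM0]; exact D.MM_mono hu.1
  · rw [← D.MM1]; exact D.MM_mono hu.2

lemma m0_N {x : ℝ} (hx : x ∈ Icc (0 : ℝ) 1) : m0 (N x) = x := by
  rw [← MM_of_mem (D.N_mem hx).1 (D.N_mem hx).2, D.MN]

/-- the section, in the new parameter -/
lemma measurable_T : Measurable (fun z => MM (tau z)) := D.MMcont.measurable.comp D.meas

lemma measurable_f : Measurable (fun x => G (N x)) := (D.model.1.comp D.Ncont).measurable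

lemma map_T : (volume.restrict (Ico (0 : ℝ) 1)).map (fun z => MM (tau z)) =
    volume.restrict (Ico (0 : ℝ) 1) := by
  haveI : IsFiniteMeasure (volume.restrict (Ico (0 : ℝ) 1)) := ⟨by simp⟩
  haveI : IsFiniteMeasure ((volume.restrict (Ico (0 : ℝ) 1)).map (fun z => MM (tau z))) :=
    Measure.isFiniteMeasure_map _ _
  refine Measure.ext_of_Iic _ _ fun x => ?_
  rw [Measure.map_apply D.measurable_T measurableSet_Iic,
    Measure.restrict_apply (D.measurable_T measurableSet_Iic),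
    Measure.restrict_apply measurableSet_Iic]
  have h1 : (fun z => MM (tau z)) ⁻¹' Iic x ∩ Ico (0 : ℝ) 1 =
      {z : ℝ | z ∈ Ico (0 : ℝ) 1 ∧ tau z ≤ N x} := by
    ext z
    simp only [mem_inter_iff, mem_preimage, mem_Iic]
    rw [D.gal]
    exact and_comm
  rw [h1]
  have h2 : volume {z : ℝ | z ∈ Ico (0 : ℝ) 1 ∧ tau z ≤ N x} = ENNReal.ofReal (m0 (N x)) := by
    rw [m0, Measure.real, ENNReal.ofReal_toReal (vol_ne_top fun z hz => hz.1)]
  rw [h2]
  rcases lt_or_ge x 0 with hx | hx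
  · have : N x ≤ 0 := by rw [← D.N0]; exact D.N_mono hx.le
    rw [m0_of_nonpos D.range this]
    have : Iic x ∩ Ico (0 : ℝ) 1 = ∅ := by
      ext y; simp only [mem_inter_iff, mem_Iic, mem_Ico, mem_empty_iff_false, iff_false]
      intro h; linarith [h.1, h.2.1]
    rw [this]; simp
  · rcases le_or_gt 1 x with hx1 | hx1
    · have : 1 ≤ N x := by rw [← D.N1]; exact D.N_mono hx1
      rw [m0_of_one_le D.range this]
      have : Iic x ∩ Ico (0 : ℝ) 1 = Ico 0 1 := by
        ext y; simp only [mem_inter_iff, mem_Iic, mem_Ico, and_iff_right_iff_imp]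
        intro h; linarith [h.1, h.2]
      rw [this]; simp
    · rw [D.m0_N ⟨hx, hx1.le⟩]
      have : Iic x ∩ Ico (0 : ℝ) 1 = Icc 0 x := by
        ext y; simp only [mem_inter_iff, mem_Iic, mem_Ico, mem_Icc]
        constructor
        · intro h; exact ⟨h.2.1, h.1⟩
        · intro h; exact ⟨h.2, h.1, lt_of_le_of_lt h.2 hx1⟩
      rw [this]; simp

lemma f_T {z : ℝ} (hz : z ∈ Ico (0 : ℝ) 1) : G (N (MM (tau z))) = z := by
  rw [D.NM, D.G_tau hz]

lemma map_f : (volume.restrict (Ico (0 : ℝ) 1)).map (fun x => G (N x)) =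
    volume.restrict (Ico (0 : ℝ) 1) := by
  conv_lhs => rw [← D.map_T]
  rw [Measure.map_map D.measurable_f D.measurable_T]
  have : (fun x => G (N x)) ∘ (fun z => MM (tau z)) =ᵐ[volume.restrict (Ico (0 : ℝ) 1)] id := by
    refine (ae_restrict_iff' measurableSet_Ico).mpr (ae_of_all _ fun z hz => ?_)
    exact D.f_T hz
  rw [Measure.map_congr this, Measure.map_id]

/-- the exceptional set has the same measure as the complement of `A` -/
lemma measure_bad {A : Set ℝ} (hA : MeasurableSet A) :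
    (volume.restrict (Ico (0 : ℝ) 1)) {x | ¬ (G (N x) ∈ A ∧ MM (tau (G (N x))) = x)} =
      volume (Ico (0 : ℝ) 1 \ A) := by
  have hS : MeasurableSet {x | ¬ (G (N x) ∈ A ∧ MM (tau (G (N x))) = x)} := by
    refine ((D.measurable_f hA).inter ?_).compl
    exact measurableSet_eq_fun (D.measurable_T.comp D.measurable_f) measurable_id
  conv_lhs => rw [← D.map_T]
  rw [Measure.map_apply D.measurable_T hS, Measure.restrict_apply (D.measurable_T hS)]
  congr 1
  ext z
  simp only [mem_inter_iff, mem_preimage, mem_diff]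
  constructor
  · rintro ⟨h1, h2⟩
    refine ⟨h2, fun h3 => h1 ?_⟩
    show G (N (MM (tau z))) ∈ A ∧ MM (tau (G (N (MM (tau z))))) = MM (tau z)
    rw [D.f_T h2]
    exact ⟨h3, rfl⟩
  · rintro ⟨h1, h2⟩
    refine ⟨?_, h1⟩
    rintro ⟨h3, -⟩
    rw [D.f_T h1] at h3
    exact h2 h3

/-- contraction of the inverse on the good set -/
lemma contract (ha : S_tauAff) {y y' : ℝ} (hy : y ∈ Ico (0 : ℝ) 1) (hy' : y' ∈ Ico (0 : ℝ) 1)
    (h : y ≤ y') (hs : sig y = sig y')
    (hk : ∀ k ≤ (dec (sig y)).length, ⌊2 ^ k * y⌋₊ = ⌊2 ^ k * y'⌋₊) :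
    |MM (tau y) - MM (tau y')| ≤ y' - y := by
  obtain ⟨c, hc, H⟩ := ha (dec (sig y))
  have hcell := hk _ le_rfl
  have e1 : tau y = tauL (dec (sig y)) y := rfl
  have e2 : tau y' = tauL (dec (sig y)) y' := by rw [hs]; rfl
  have hd := H y hy y' hy' hcell
  rw [← e1, ← e2] at hd
  have hle : tau y' ≤ tau y := by nlinarith
  have h1 := D.tau_mem hy
  have h2 := D.tau_mem hy'
  rw [MM_of_mem h1.1.le h1.2.le, MM_of_mem h2.1.le h2.2.le]
  have h3 := m0_mono D.meas hle
  rw [abs_of_nonneg (by linarith)]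
  refine m0_sub_le D.meas hle h fun z hz hz1 hz2 => ?_
  -- the point of [y,y'] with the same image
  set w := y + (tau y - tau z) / c with hw
  have hw1 : y ≤ w := by
    have : 0 ≤ (tau y - tau z) / c := div_nonneg (by linarith) hc.le
    linarith
  have hw2 : w ≤ y' := by
    have : (tau y - tau z) / c ≤ y' - y := by
      rw [div_le_iff₀ hc]; nlinarith
    linarith
  have hwI : w ∈ Ico (0 : ℝ) 1 := ⟨hy.1.trans hw1, lt_of_le_of_lt hw2 hy'.2⟩
  have hcw : ⌊2 ^ (dec (sig y)).length * y⌋₊ = ⌊2 ^ (dec (sig y)).length * w⌋₊ := by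
    have hp : (0 : ℝ) < 2 ^ (dec (sig y)).length := by positivity
    apply le_antisymm
    · exact Nat.floor_le_floor (mul_le_mul_of_nonneg_left hw1 hp.le)
    · rw [hcell]
      exact Nat.floor_le_floor (mul_le_mul_of_nonneg_left hw2 hp.le)
  have h4 := H y hy w hwI hcw
  have h5 : tauL (dec (sig y)) w = tau z := by
    rw [← e1] at h4
    have : c * (w - y) = tau y - tau z := by
      rw [hw]; field_simp; ring
    linarith
  have h6 := D.tauG G D.model (dec (sig y)) w hwI
  rw [h5, D.G_tau hz] at h6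
  rw [h6]
  exact ⟨hw1, hw2⟩

end Data

end Pool.Agent.Q233.GE
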