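import Pool.Agent.Q233.GE.Asm2

/-! Assembly of project GE (MP_8a7b28_an), third part. -/

set_option autoImplicit false

open MeasureTheory Set Filter Topology

namespace Pool.Agent.Q233.GE

open Pool.Agent.Helper179.KS

lemma one_le_R (t : ℕ) : 1 ≤ R t := Nat.one_le_two_pow

lemma lt_R (t : ℕ) : t < R t := by
  unfold R
  exact lt_trans (Nat.lt_two_pow_self (n := t)) (Nat.lt_two_pow_self (n := 2 ^ t))

/-- dyadic cells -/
lemma abs_sub_le_of_floor_eq {k : ℕ} {a b : ℝ} (ha : 0 ≤ a) (hb : 0 ≤ b)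
    (h : ⌊2 ^ k * a⌋₊ = ⌊2 ^ k * b⌋₊) : |a - b| ≤ (1 / 2) ^ k := by
  have hp : (0 : ℝ) < 2 ^ k := by positivity
  have h1 := Nat.floor_le (a := (2 : ℝ) ^ k * a) (by positivity)
  have h2 := Nat.floor_le (a := (2 : ℝ) ^ k * b) (by positivity)
  have h3 := Nat.lt_floor_add_one ((2 : ℝ) ^ k * a)
  have h4 := Nat.lt_floor_add_one ((2 : ℝ) ^ k * b)
  rw [h] at h1 h3
  have e : (1 / 2 : ℝ) ^ k = 1 / 2 ^ k := by rw [one_div_pow]
  rw [e, abs_le]
  constructor
  · rw [neg_le, le_div_iff₀ hp]; nlinarith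
  · rw [le_div_iff₀ hp]; nlinarith

namespace Data

variable {G N : ℝ → ℝ} (D : Data G N)

include D

/-- the map as a continuous self-map of the unit interval -/
noncomputable def F : C(unitInterval, unitInterval) where
  toFun x := ⟨G (N x), D.model.2.1 _ (D.N_mem x.2)⟩
  continuous_toFun := by
    refine Continuous.subtype_mk ?_ _
    exact (D.model.1.comp D.Ncont).comp continuous_subtype_val

lemma F_coe (x : unitInterval) : (D.F x : ℝ) = G (N x) := rfl

lemma measurePreserving_F :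
    MeasurePreserving D.F (volume : Measure unitInterval) (volume : Measure unitInterval) := by
  have hme : MeasurableEmbedding (Subtype.val : unitInterval → ℝ) :=
    MeasurableEmbedding.subtype_coe measurableSet_Icc
  have hval : (volume : Measure unitInterval).map Subtype.val =
      volume.restrict (Ico (0 : ℝ) 1) := by
    rw [restrict_Ico_eq_restrict_Icc]
    exact unitInterval.measurePreserving_coe.map_eq
  refine ⟨D.F.continuous.measurable, ?_⟩
  have h1 : ((volume : Measure unitInterval).map D.F).map Subtype.val =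
      (volume : Measure unitInterval).map Subtype.val := by
    rw [Measure.map_map hme.measurable D.F.continuous.measurable]
    have : (Subtype.val ∘ D.F : unitInterval → ℝ) = (fun x => G (N x)) ∘ Subtype.val := by
      funext x; rfl
    rw [this, ← Measure.map_map D.measurable_f hme.measurable, hval, D.map_f]
  have h2 := congrArg (fun μ => Measure.comap (Subtype.val : unitInterval → ℝ) μ) h1
  have h3 : ∀ μ : Measure unitInterval,
      Measure.comap (Subtype.val : unitInterval → ℝ) (μ.map Subtype.val) = μ :=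
    fun μ => hme.comap_map μ
  simp only [h3] at h2
  exact h2

lemma vol_unit {S : Set ℝ} (hS : MeasurableSet S) :
    (volume : Measure unitInterval) (Subtype.val ⁻¹' S) = (volume.restrict (Ico (0 : ℝ) 1)) S := by
  have hme : MeasurableEmbedding (Subtype.val : unitInterval → ℝ) :=
    MeasurableEmbedding.subtype_coe measurableSet_Icc
  have hval : (volume : Measure unitInterval).map Subtype.val =
      volume.restrict (Ico (0 : ℝ) 1) := by
    rw [restrict_Ico_eq_restrict_Icc]
    exact unitInterval.measurePreserving_coe.map_eq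
  rw [← hval, Measure.map_apply hme.measurable hS]

theorem entropy (ha : S_tauAff) (hb : S_selb) (hz : S_zero) :
    ksEntropy (volume : Measure unitInterval) D.F = 0 := by
  refine hz unitInterval (volume : Measure unitInterval) D.F D.measurePreserving_F ?_
  intro ε hε δ₀ hδ₀
  -- choice of the stage
  obtain ⟨t, ht⟩ := exists_nat_gt (max (60 / ε) (1 / δ₀))
  have hRt : (t : ℝ) < R t := by exact_mod_cast lt_R t
  have hR1 : (1 : ℝ) ≤ R t := by exact_mod_cast one_le_R t
  have hR0 : (0 : ℝ) < R t := by linarith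
  have h60 : 60 / ε < R t := lt_trans (lt_of_le_of_lt (le_max_left _ _) ht) hRt
  have hδ : 1 / δ₀ < R t := lt_trans (lt_of_le_of_lt (le_max_right _ _) ht) hRt
  obtain ⟨A, hA, hA01, hvol, hloc⟩ := hb t
  have hpow : ∀ n : ℕ, 1 ≤ n → (R t : ℝ) ≤ (R t : ℝ) ^ n := fun n hn =>
    le_self_pow₀ hR1 (by omega)
  refine ⟨1 / (R t : ℝ) ^ 16, ?_, R t ^ 16 + 1, fun x => ⟨⌊(R t : ℝ) ^ 16 * x⌋₊, ?_⟩,
    {x | ¬ (G (N x) ∈ A ∧ MM (tau (G (N x))) = x)}, ?_, ?_, ?_, ?_, ?_, ?_⟩
  · rw [div_le_iff₀ (by positivity)]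
    rw [div_lt_iff₀ hδ₀] at hδ
    nlinarith [hpow 16 (by norm_num)]
  · have hx := x.2
    have : ⌊(R t : ℝ) ^ 16 * x⌋₊ ≤ R t ^ 16 := by
      have h1 : (R t : ℝ) ^ 16 * x ≤ (R t : ℝ) ^ 16 := by
        have : (0 : ℝ) ≤ (R t : ℝ) ^ 16 := by positivity
        nlinarith [hx.2]
      have h2 := Nat.floor_le_floor h1
      have h3 : ⌊(R t : ℝ) ^ 16⌋₊ = R t ^ 16 := by
        have : ((R t ^ 16 : ℕ) : ℝ) = (R t : ℝ) ^ 16 := by push_cast; ring
        rw [← this, Nat.floor_natCast]
      rw [h3] at h2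
      exact h2
    omega
  · have : Measurable (fun x : unitInterval => ⌊(R t : ℝ) ^ 16 * x⌋₊) :=
      Nat.measurable_floor.comp (measurable_const.mul measurable_subtype_coe)
    refine measurable_to_countable' fun j => ?_
    have hset : (fun x : unitInterval => (⟨⌊(R t : ℝ) ^ 16 * x⌋₊, by
        have hx := x.2
        have : ⌊(R t : ℝ) ^ 16 * x⌋₊ ≤ R t ^ 16 := by
          have h1 : (R t : ℝ) ^ 16 * x ≤ (R t : ℝ) ^ 16 := by
            have : (0 : ℝ) ≤ (R t : ℝ) ^ 16 := by positivity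
            nlinarith [hx.2]
          have h2 := Nat.floor_le_floor h1
          have h3 : ⌊(R t : ℝ) ^ 16⌋₊ = R t ^ 16 := by
            have : ((R t ^ 16 : ℕ) : ℝ) = (R t : ℝ) ^ 16 := by push_cast; ring
            rw [← this, Nat.floor_natCast]
          rw [h3] at h2
          exact h2
        omega⟩ : Fin (R t ^ 16 + 1))) ⁻¹' {j} =
        (fun x : unitInterval => ⌊(R t : ℝ) ^ 16 * x⌋₊) ⁻¹' {(j : ℕ)} := by
      ext x
      simp [Fin.ext_iff]
    rw [hset]
    exact this (measurableSet_singleton _)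
  · have hS : MeasurableSet {x : ℝ | ¬ (G (N x) ∈ A ∧ MM (tau (G (N x))) = x)} := by
      refine ((D.measurable_f hA).inter ?_).compl
      exact measurableSet_eq_fun (D.measurable_T.comp D.measurable_f) measurable_id
    exact measurable_subtype_coe hS
  · intro x x' h
    have h' : ⌊(R t : ℝ) ^ 16 * x⌋₊ = ⌊(R t : ℝ) ^ 16 * x'⌋₊ := by
      simpa [Fin.ext_iff] using h
    have hp : (0 : ℝ) < (R t : ℝ) ^ 16 := by positivity
    have h1 := Nat.floor_le (a := (R t : ℝ) ^ 16 * x) (mul_nonneg hp.le x.2.1)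
    have h2 := Nat.floor_le (a := (R t : ℝ) ^ 16 * x') (mul_nonneg hp.le x'.2.1)
    have h3 := Nat.lt_floor_add_one ((R t : ℝ) ^ 16 * x)
    have h4 := Nat.lt_floor_add_one ((R t : ℝ) ^ 16 * x')
    rw [h'] at h1 h3
    rw [Subtype.dist_eq, Real.dist_eq, abs_le]
    constructor
    · rw [neg_le, le_div_iff₀ hp]; nlinarith
    · rw [le_div_iff₀ hp]; nlinarith
  · intro x x' hx hx' hd
    simp only [mem_setOf_eq, not_not] at hx hx'
    rw [Subtype.dist_eq, Real.dist_eq, D.F_coe, D.F_coe] at hd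
    rw [Subtype.dist_eq, Real.dist_eq]
    obtain ⟨hsig, hk⟩ := hloc _ hx.1 _ hx'.1 hd
    refine le_trans ?_ hd
    rcases le_total (G (N x)) (G (N x')) with h | h
    · have := D.contract ha (hA01 hx.1) (hA01 hx'.1) h hsig hk
      rw [hx.2, hx'.2] at this
      rw [abs_sub_comm (G (N x)), abs_of_nonneg (by linarith : 0 ≤ G (N x') - G (N x))]
      exact this
    · have hk' : ∀ k ≤ (dec (sig (G (N x')))).length,
          ⌊2 ^ k * G (N x')⌋₊ = ⌊2 ^ k * G (N x)⌋₊ := by
        intro k hk1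
        rw [← hsig] at hk1
        exact (hk k hk1).symm
      have := D.contract ha (hA01 hx'.1) (hA01 hx.1) h hsig.symm hk'
      rw [hx.2, hx'.2] at this
      rw [abs_sub_comm, abs_of_nonneg (by linarith : 0 ≤ G (N x) - G (N x'))]
      exact this
  all_goals
    have hS : MeasurableSet {x : ℝ | ¬ (G (N x) ∈ A ∧ MM (tau (G (N x))) = x)} := by
      refine ((D.measurable_f hA).inter ?_).compl
      exact measurableSet_eq_fun (D.measurable_T.comp D.measurable_f) measurable_id
    have hmu : (volume : Measure unitInterval).real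
        {x : unitInterval | ¬ (G (N x) ∈ A ∧ MM (tau (G (N x))) = x)} ≤ 3 / (R t : ℝ) ^ 8 := by
      rw [Measure.real]
      have e1 : (volume : Measure unitInterval)
          {x : unitInterval | ¬ (G (N x) ∈ A ∧ MM (tau (G (N x))) = x)} =
          volume (Ico (0 : ℝ) 1 \ A) := by
        rw [← D.measure_bad hA, ← D.vol_unit hS]
        rfl
      rw [e1]
      exact ENNReal.toReal_le_of_le_ofReal (by positivity) hvol
    have hmu0 : 0 ≤ (volume : Measure unitInterval).real
        {x : unitInterval | ¬ (G (N x) ∈ A ∧ MM (tau (G (N x))) = x)} := measureReal_nonneg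
    have h8 : (R t : ℝ) * R t ≤ (R t : ℝ) ^ 8 := by
      have : (R t : ℝ) ^ 2 ≤ (R t : ℝ) ^ 8 := pow_le_pow_right₀ hR1 (by norm_num)
      nlinarith
    rw [div_lt_iff₀ hε] at h60
  · refine hmu.trans ?_
    rw [div_le_iff₀ (by positivity)]
    nlinarith [hpow 8 (by norm_num)]
  · have hlog : Real.log ((R t ^ 16 + 1 : ℕ) : ℝ) ≤ 17 * R t := by
      have h1 : ((R t ^ 16 + 1 : ℕ) : ℝ) ≤ Real.exp (17 * R t) := by
        push_cast
        have h2 : (R t : ℝ) ≤ Real.exp (R t) := by
          have := Real.add_one_le_exp (R t : ℝ); linarith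
        have h3 : (R t : ℝ) ^ 16 ≤ Real.exp (R t) ^ 16 := pow_le_pow_left₀ hR0.le h2 16
        have h4 : 2 ≤ Real.exp (R t) := by
          have := Real.add_one_le_exp (R t : ℝ); linarith
        have h5 : Real.exp (17 * R t) = Real.exp (R t) ^ 16 * Real.exp (R t) := by
          rw [← Real.exp_nat_mul, ← Real.exp_add]; congr 1; push_cast; ring
        have h6 : (1 : ℝ) ≤ Real.exp (R t) ^ 16 := one_le_pow₀ (by linarith)
        rw [h5]; nlinarith
      exact (Real.log_le_iff_le_exp (by positivity)).mpr h1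
    have hlog0 : 0 ≤ Real.log ((R t ^ 16 + 1 : ℕ) : ℝ) :=
      Real.log_nonneg (by push_cast; nlinarith [pow_pos hR0 16])
    calc _ ≤ 3 / (R t : ℝ) ^ 8 * (17 * R t) := mul_le_mul hmu hlog hlog0 (by positivity)
      _ ≤ ε := by
        rw [div_mul_eq_mul_div, div_le_iff₀ (by positivity)]
        nlinarith [mul_le_mul_of_nonneg_left h8 hε.le]

theorem dimension (hsep : S_sep) (hxG : S_xG) (hdim : S_dim) {X : ℝ → ℝ} (hX : IsDigitMap X) :
    1 < dimH (Set.range fun x : unitInterval => ((x : ℝ), (D.F x : ℝ))) := by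
  have hxr : ∀ a ∈ Ico (0 : ℝ) 1, ∀ b ∈ Ico (0 : ℝ) 1, 4 * X a + X b ∈ Icc (0 : ℝ) 1 := by
    intro a ha b hb
    have h1 := hX.2 a ha
    have h2 := hX.2 b hb
    constructor <;> linarith [h1.1, h1.2.1, h2.1, h2.2.1]
  refine hdim _ (fun a b => MM (4 * X a + X b)) ?_ ?_ ?_
  · refine D.MMcont.measurable.comp ?_
    exact ((hX.1.comp measurable_fst).const_mul 4).add (hX.1.comp measurable_snd)
  · intro a ha b hb
    refine ⟨⟨MM (4 * X a + X b), D.MM_mem (hxr a ha b hb)⟩, ?_⟩
    simp only [D.F_coe, Prod.mk.injEq, true_and]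
    rw [D.NM, hxG G X D.model hX a ha b hb]
  · intro k a ha b hb a' ha' b' hb' h
    by_contra hcon
    have hne : ¬ (⌊2 ^ k * a⌋₊ = ⌊2 ^ k * a'⌋₊ ∧ ⌊2 ^ k * b⌋₊ = ⌊2 ^ k * b'⌋₊) := by
      rintro ⟨h1, -⟩
      exact hcon (abs_sub_le_of_floor_eq ha.1 ha'.1 h1)
    obtain ⟨L, hLk, hL4, i, hi, H⟩ := hsep X hX k a ha b hb a' ha' b' hb' hne
    have hx := hxr a ha b hb
    have hx' := hxr a' ha' b' hb'
    have h1 := label_mass D.meas D.sela (u := min (4 * X a + X b) (4 * X a' + X b'))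
      (u' := max (4 * X a + X b) (4 * X a' + X b')) min_le_max L hL4 L.length i le_rfl hi H
    have h2 : (1 / 2 : ℝ) ^ (40 * (k + 1)) ≤ (1 / 2) ^ (40 * (L.length + 1)) :=
      pow_le_pow_of_le_one (by norm_num) (by norm_num) (by omega)
    rw [MM_of_mem hx.1 hx.2, MM_of_mem hx'.1 hx'.2] at h
    rcases le_total (4 * X a + X b) (4 * X a' + X b') with h3 | h3
    · rw [min_eq_left h3, max_eq_right h3] at h1
      rw [abs_sub_comm] at h
      have := le_abs_self (m0 (4 * X a' + X b') - m0 (4 * X a + X b))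
      linarith
    · rw [min_eq_right h3, max_eq_left h3] at h1
      have := le_abs_self (m0 (4 * X a + X b) - m0 (4 * X a' + X b'))
      linarith

end Data

theorem main (h1 : S_model) (h2 : S_selm) (h3 : S_sela) (h4 : S_selb) (h5 : S_tauRange)
    (h6 : S_tauG) (h7 : S_tauAff) (h8 : S_tauMeas) (h9 : S_dens) (h10 : S_xmap) (h11 : S_xG)
    (h12 : S_sep) (h13 : S_dim) (h14 : S_zero) : S_main := by
  obtain ⟨G, hG⟩ := h1
  obtain ⟨X, hX⟩ := h10
  have hm : Measurable tau := h8 h2
  obtain ⟨N, hN1, hN2, hN3, hN4⟩ := exists_inverse hm h3 h9 h6 h5 hG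
  have D : Data G N := ⟨hm, h5, h6, h3, hG, MM_continuous hm h6 hG, hN1, hN2, hN3, hN4⟩
  exact ⟨D.F, D.measurePreserving_F, D.dimension h12 h11 h13 hX, D.entropy h7 h4 h14⟩

end Pool.Agent.Q233.GE
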