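import Pool.Agent.Q233.GE.Stm
import Pool.Agent.Helper179.KSCover

/-! Project GE (MP_8a7b28_an): elementary Shannon entropy. -/

set_option autoImplicit false

open MeasureTheory Set Filter Topology

namespace Pool.Agent.Q233.GE

open Pool.Agent.Helper179.KS

lemma sum_fiber {Ω α : Type} [MeasurableSpace Ω] [Fintype α] (μ : Measure Ω)
    [IsFiniteMeasure μ] (Z : Ω → α) (hZ : ∀ a, MeasurableSet (Z ⁻¹' {a})) (S : Set Ω)
    (hS : MeasurableSet S) : ∑ a, μ.real (S ∩ Z ⁻¹' {a}) = μ.real S := by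
  classical
  have h1 : μ.real (⋃ a ∈ (Finset.univ : Finset α), (S ∩ Z ⁻¹' {a})) =
      ∑ a, μ.real (S ∩ Z ⁻¹' {a}) := by
    rw [measureReal_biUnion_finset]
    · intro a _ b _ hab
      refine Disjoint.mono inter_subset_right inter_subset_right ?_
      exact Disjoint.preimage _ (by simpa using hab)
    · intro b _
      exact hS.inter (hZ b)
  rw [← h1]
  congr 1
  ext x
  simp

lemma sum_fiber_univ {Ω α : Type} [MeasurableSpace Ω] [Fintype α] (μ : Measure Ω)
    [IsProbabilityMeasure μ] (Z : Ω → α) (hZ : ∀ a, MeasurableSet (Z ⁻¹' {a})) :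
    ∑ a, μ.real (Z ⁻¹' {a}) = 1 := by
  have := sum_fiber μ Z hZ univ MeasurableSet.univ
  simpa using this

lemma negMulLog_sum_le' {ι : Type} (s : Finset ι) (p : ι → ℝ) (hp : ∀ i ∈ s, 0 ≤ p i) :
    Real.negMulLog (∑ i ∈ s, p i) ≤ ∑ i ∈ s, Real.negMulLog (p i) := by
  have e : Real.negMulLog (∑ i ∈ s, p i) = ∑ i ∈ s, -(p i * Real.log (∑ j ∈ s, p j)) := by
    rw [Real.negMulLog, Finset.sum_neg_distrib, ← Finset.sum_mul]
    ring
  rw [e]
  apply Finset.sum_le_sum
  intro i hi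
  rw [Real.negMulLog]
  rcases (hp i hi).eq_or_lt with h | h
  · simp [← h]
  · have h1 : p i ≤ ∑ j ∈ s, p j := Finset.single_le_sum hp hi
    have h2 := Real.log_le_log h h1
    have h3 := mul_le_mul_of_nonneg_left h2 h.le
    linarith

theorem data : S_data := by
  classical
  intro Ω α β _ _ _ μ _ Z W hZ hW
  obtain ⟨x0⟩ : Nonempty Ω := nonempty_of_isProbabilityMeasure μ
  set g : α → β := fun a => if h : ∃ x, Z x = a then W h.choose else W x0 with hg
  have hWg : ∀ x, W x = g (Z x) := by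
    intro x
    have h : ∃ x', Z x' = Z x := ⟨x, rfl⟩
    simp only [hg, dif_pos h]
    exact hW _ _ h.choose_spec.symm
  have e : ∀ j, μ.real (W ⁻¹' {j}) = ∑ i with g i = j, μ.real (Z ⁻¹' {i}) := by
    intro j
    rw [← measureReal_biUnion_finset]
    · congr 1
      ext x
      simp [hWg x]
    · intro a _ b _ hab
      exact Disjoint.preimage _ (by simpa using hab)
    · intro b _
      exact hZ b
  unfold shannonEntropy
  simp_rw [e]
  calc ∑ j, Real.negMulLog (∑ i with g i = j, μ.real (Z ⁻¹' {i})) ≤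
      ∑ j, ∑ i with g i = j, Real.negMulLog (μ.real (Z ⁻¹' {i})) :=
        Finset.sum_le_sum fun j _ => negMulLog_sum_le' _ _ fun i _ => measureReal_nonneg
    _ = ∑ i, Real.negMulLog (μ.real (Z ⁻¹' {i})) := Finset.sum_fiberwise _ _ _

theorem sub : S_sub := by
  classical
  intro Ω α β _ _ _ μ _ Z W hZ hW
  have hpre : ∀ p : α × β, (fun x => (Z x, W x)) ⁻¹' {p} = Z ⁻¹' {p.1} ∩ W ⁻¹' {p.2} := by
    rintro ⟨a, b⟩
    ext x
    simp
  have hm : ∀ p : α × β, MeasurableSet ((fun x => (Z x, W x)) ⁻¹' {p}) := by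
    intro p
    rw [hpre p]
    exact (hZ _).inter (hW _)
  have hsum1 : ∑ p : α × β, μ.real ((fun x => (Z x, W x)) ⁻¹' {p}) = 1 :=
    sum_fiber_univ μ _ hm
  have hq1 : ∑ p : α × β, μ.real (Z ⁻¹' {p.1}) * μ.real (W ⁻¹' {p.2}) ≤ 1 := by
    rw [Fintype.sum_prod_type]
    simp_rw [← Finset.mul_sum]
    rw [sum_fiber_univ μ W hW]
    simp_rw [mul_one]
    rw [sum_fiber_univ μ Z hZ]
  have hle : ∀ p : α × β, μ.real ((fun x => (Z x, W x)) ⁻¹' {p}) ≤ μ.real (Z ⁻¹' {p.1}) ∧
      μ.real ((fun x => (Z x, W x)) ⁻¹' {p}) ≤ μ.real (W ⁻¹' {p.2}) := by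
    intro p
    rw [hpre p]
    exact ⟨measureReal_mono inter_subset_left, measureReal_mono inter_subset_right⟩
  have hpos : ∀ p : α × β, μ.real ((fun x => (Z x, W x)) ⁻¹' {p}) ≠ 0 →
      0 < μ.real (Z ⁻¹' {p.1}) ∧ 0 < μ.real (W ⁻¹' {p.2}) := by
    intro p hp
    have h0 : 0 < μ.real ((fun x => (Z x, W x)) ⁻¹' {p}) :=
      lt_of_le_of_ne measureReal_nonneg (Ne.symm hp)
    exact ⟨h0.trans_le (hle p).1, h0.trans_le (hle p).2⟩
  have h := gibbs (fun p : α × β => μ.real ((fun x => (Z x, W x)) ⁻¹' {p}))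
    (fun p => μ.real (Z ⁻¹' {p.1}) * μ.real (W ⁻¹' {p.2})) (fun _ => measureReal_nonneg) hsum1
    (fun _ => mul_nonneg measureReal_nonneg measureReal_nonneg) hq1
    (fun p hp => mul_pos (hpos p hp).1 (hpos p hp).2)
  refine le_trans h ?_
  have hsplit : ∀ p : α × β, μ.real ((fun x => (Z x, W x)) ⁻¹' {p}) *
      (-Real.log (μ.real (Z ⁻¹' {p.1}) * μ.real (W ⁻¹' {p.2}))) =
      μ.real (Z ⁻¹' {p.1} ∩ W ⁻¹' {p.2}) * (-Real.log (μ.real (Z ⁻¹' {p.1}))) +
      μ.real (Z ⁻¹' {p.1} ∩ W ⁻¹' {p.2}) * (-Real.log (μ.real (W ⁻¹' {p.2}))) := by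
    intro p
    by_cases hp : μ.real ((fun x => (Z x, W x)) ⁻¹' {p}) = 0
    · have hp' := hp
      rw [hpre p] at hp'
      rw [hp, hp']; ring
    · have := hpos p hp
      rw [hpre p, Real.log_mul this.1.ne' this.2.ne']
      ring
  simp_rw [hsplit]
  rw [Finset.sum_add_distrib]
  have e1 : ∑ p : α × β, μ.real (Z ⁻¹' {p.1} ∩ W ⁻¹' {p.2}) *
      (-Real.log (μ.real (Z ⁻¹' {p.1}))) = shannonEntropy μ Z := by
    rw [Fintype.sum_prod_type]
    unfold shannonEntropy
    refine Finset.sum_congr rfl fun a _ => ?_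
    simp only []
    rw [← Finset.sum_mul, sum_fiber μ W hW _ (hZ a), Real.negMulLog]
    ring
  have e2 : ∑ p : α × β, μ.real (Z ⁻¹' {p.1} ∩ W ⁻¹' {p.2}) *
      (-Real.log (μ.real (W ⁻¹' {p.2}))) = shannonEntropy μ W := by
    rw [Fintype.sum_prod_type_right]
    unfold shannonEntropy
    refine Finset.sum_congr rfl fun b _ => ?_
    simp only []
    rw [← Finset.sum_mul]
    have : ∑ a, μ.real (Z ⁻¹' {a} ∩ W ⁻¹' {b}) = μ.real (W ⁻¹' {b}) :=
      (Finset.sum_congr rfl fun a _ => by rw [inter_comm]).trans (sum_fiber μ Z hZ _ (hW b))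
    rw [this, Real.negMulLog]
    ring
  rw [e1, e2]

/-- entropy of a finite sub-probability vector -/
lemma sum_negMulLog_le {α : Type} [Fintype α] (p : α → ℝ) (hp : ∀ a, 0 ≤ p a) :
    ∑ a, Real.negMulLog (p a) ≤ Real.negMulLog (∑ a, p a) +
      (∑ a, p a) * Real.log (Fintype.card α) := by
  set s := ∑ a, p a with hs
  have hs0 : 0 ≤ s := Finset.sum_nonneg fun a _ => hp a
  rcases hs0.eq_or_lt with h0 | h0
  · have hz : ∀ a, p a = 0 := by
      intro a
      have := (Finset.sum_eq_zero_iff_of_nonneg (s := Finset.univ) (f := p)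
        (fun a _ => hp a)).mp (by rw [← hs, ← h0]) a (Finset.mem_univ a)
      exact this
    simp_rw [hz, ← h0]
    simp
  · have hne : Nonempty α := by
      by_contra hcon
      rw [not_nonempty_iff] at hcon
      rw [hs, Finset.univ_eq_empty, Finset.sum_empty] at h0
      exact lt_irrefl _ h0
    have hcard : (0 : ℝ) < Fintype.card α := by exact_mod_cast Fintype.card_pos
    have h := gibbs (fun a => p a / s) (fun _ => 1 / (Fintype.card α : ℝ))
      (fun a => div_nonneg (hp a) h0.le) (by rw [← Finset.sum_div, ← hs, div_self h0.ne'])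
      (fun _ => by positivity) (by
        rw [Finset.sum_const, Finset.card_univ, nsmul_eq_mul, mul_one_div, div_self hcard.ne'])
      (fun _ _ => by positivity)
    have e1 : ∀ a, Real.negMulLog (p a / s) = (Real.negMulLog (p a) + p a * Real.log s) / s := by
      intro a
      unfold Real.negMulLog
      by_cases ha : p a = 0
      · simp [ha]
      · rw [Real.log_div ha h0.ne']; ring
    simp_rw [e1] at h
    rw [← Finset.sum_div, Finset.sum_add_distrib, ← Finset.sum_mul, ← hs, ← Finset.sum_mul,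
      ← Finset.sum_div, ← hs, div_self h0.ne', one_mul, one_div, Real.log_inv, neg_neg,
      div_le_iff₀ h0] at h
    unfold Real.negMulLog at h ⊢
    linarith

theorem card : S_card := by
  intro Ω α _ _ μ _ Z hZ
  have h := sum_negMulLog_le (fun a => μ.real (Z ⁻¹' {a})) (fun _ => measureReal_nonneg)
  rw [sum_fiber_univ μ Z hZ] at h
  simpa [shannonEntropy] using h

theorem opt : S_opt := by
  intro Ω α _ _ μ _ Z hZ
  have h1 := sum_fiber_univ μ Z hZ
  rw [Fintype.sum_option] at h1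
  have h2 := sum_negMulLog_le (fun a => μ.real (Z ⁻¹' {some a})) (fun _ => measureReal_nonneg)
  have h3 : ∑ a, μ.real (Z ⁻¹' {some a}) = 1 - μ.real (Z ⁻¹' {none}) := by linarith
  rw [h3] at h2
  unfold shannonEntropy
  rw [Fintype.sum_option]
  linarith

end Pool.Agent.Q233.GE
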