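import Pool.Agent.Q233.GE.EntA

/-! Project GE (MP_8a7b28_an): the zero entropy criterion. -/

set_option autoImplicit false

open MeasureTheory Set Filter Topology

namespace Pool.Agent.Q233.GE

open Pool.Agent.Helper179.KS

lemma fiber_itinerary {X α : Type} [MeasurableSpace X] {f : X → X} (hf : Measurable f) (Z : X → α)
    (hZ : ∀ a, MeasurableSet (Z ⁻¹' {a})) (n : ℕ) (w : Fin n → α) :
    MeasurableSet (itinerary f Z n ⁻¹' {w}) := by
  have : itinerary f Z n ⁻¹' {w} = ⋂ j : Fin n, (f^[j]) ⁻¹' (Z ⁻¹' {w j}) := by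
    ext x
    simp only [mem_preimage, mem_singleton_iff, mem_iInter]
    constructor
    · intro h j
      rw [← h]; rfl
    · intro h
      funext j
      exact h j
  rw [this]
  exact MeasurableSet.iInter fun j => (hf.iterate j) (hZ _)

lemma shannon_comp {X α : Type} [MeasurableSpace X] [Fintype α] (μ : Measure X)
    {f : X → X} (hf : MeasurePreserving f μ μ) (Z : X → α)
    (hZ : ∀ a, MeasurableSet (Z ⁻¹' {a})) :
    shannonEntropy μ (fun x => Z (f x)) = shannonEntropy μ Z := by
  unfold shannonEntropy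
  refine Finset.sum_congr rfl fun a _ => ?_
  congr 1
  have : (fun x => Z (f x)) ⁻¹' {a} = f ⁻¹' (Z ⁻¹' {a}) := rfl
  rw [this, Measure.real, Measure.real, hf.measure_preimage (hZ a).nullMeasurableSet]

lemma shannon_itinerary_le (h1 : S_data) (h2 : S_sub) (h3 : S_card) {X α : Type}
    [MeasurableSpace X] [Fintype α] (μ : Measure X) [IsProbabilityMeasure μ]
    {f : X → X} (hf : MeasurePreserving f μ μ) (Z : X → α)
    (hZ : ∀ a, MeasurableSet (Z ⁻¹' {a})) (n : ℕ) :
    shannonEntropy μ (itinerary f Z n) ≤ n * shannonEntropy μ Z := by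
  induction n with
  | zero =>
    have := h3 X (Fin 0 → α) μ (itinerary f Z 0) (fiber_itinerary hf.measurable Z hZ 0)
    simpa using this
  | succ n ih =>
    have hfn := hf.iterate n
    have hZn : ∀ a, MeasurableSet ((fun x => Z (f^[n] x)) ⁻¹' {a}) := fun a => hfn.measurable (hZ a)
    have e1 := h1 X ((Fin n → α) × α) (Fin (n + 1) → α) μ
      (fun x => (itinerary f Z n x, Z (f^[n] x))) (itinerary f Z (n + 1)) ?_ ?_
    · have e2 := h2 X (Fin n → α) α μ (itinerary f Z n) (fun x => Z (f^[n] x))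
        (fiber_itinerary hf.measurable Z hZ n) hZn
      have e3 := shannon_comp μ hfn Z hZ
      rw [e3] at e2
      push_cast
      linarith
    · rintro ⟨w, a⟩
      have : (fun x => (itinerary f Z n x, Z (f^[n] x))) ⁻¹' {(w, a)} =
          itinerary f Z n ⁻¹' {w} ∩ (fun x => Z (f^[n] x)) ⁻¹' {a} := by
        ext x; simp
      rw [this]
      exact (fiber_itinerary hf.measurable Z hZ n w).inter (hZn a)
    · intro x x' h
      simp only [Prod.mk.injEq] at h
      funext j
      rcases Nat.lt_or_ge j n with hj | hj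
      · have := congrFun h.1 ⟨j, hj⟩
        exact this
      · have hjn : (j : ℕ) = n := by have := j.2; omega
        show Z (f^[(j : ℕ)] x) = Z (f^[(j : ℕ)] x')
        rw [hjn]
        exact h.2

theorem zeroEnt (h1 : S_data) (h2 : S_sub) (h3 : S_card) (h4 : S_opt) : S_zero := by
  classical
  intro X _ _ _ _ μ _ f hf H
  refine le_antisymm ?_ (ksEntropy_nonneg μ f)
  have e0 : (0 : EReal) = ((0 : ℝ) : EReal) := rfl
  rw [e0, ksEntropy_le_iff]
  intro p P hP
  unfold partitionEntropy
  rw [limsup_coe_le_iff]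
  intro ε hε
  have hPm : ∀ i, MeasurableSet (P ⁻¹' {i}) := fun i => hP (measurableSet_singleton i)
  -- smallness near zero
  have hcont : Continuous fun m : ℝ => Real.negMulLog m + Real.negMulLog (1 - m) :=
    Real.continuous_negMulLog.add (Real.continuous_negMulLog.comp (by fun_prop))
  obtain ⟨η₁, hη₁, hη₁'⟩ := Metric.continuous_iff.mp hcont 0 (ε / 8) (by positivity)
  have hsmall : ∀ m : ℝ, 0 ≤ m → m < η₁ → Real.negMulLog m + Real.negMulLog (1 - m) ≤ ε / 8 := by
    intro m hm0 hm1
    have := hη₁' m (by rw [Real.dist_eq, sub_zero, abs_of_nonneg hm0]; exact hm1)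
    rw [Real.dist_eq] at this
    simp only [Real.negMulLog_zero, sub_zero, Real.negMulLog_one, add_zero] at this
    exact (le_abs_self _).trans this.le
  set Lp : ℝ := Real.log p with hLp
  have hLp0 : 0 ≤ Lp := by
    rcases Nat.eq_zero_or_pos p with h | h
    · rw [hLp, h]; simp
    · exact Real.log_nonneg (by exact_mod_cast h)
  set η : ℝ := min (η₁ / 2) (ε / (8 * (Lp + 1))) with hη
  have hη0 : 0 < η := lt_min (by positivity) (by positivity)
  have hηη₁ : η < η₁ := lt_of_le_of_lt (min_le_left _ _) (by linarith)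
  have hηL : η * Lp ≤ ε / 8 := by
    have : η ≤ ε / (8 * (Lp + 1)) := min_le_right _ _
    calc η * Lp ≤ ε / (8 * (Lp + 1)) * Lp := mul_le_mul_of_nonneg_right this hLp0
      _ ≤ ε / 8 := by
        rw [div_mul_eq_mul_div, div_le_div_iff₀ (by positivity) (by positivity)]
        nlinarith
  -- closed sets
  have hcl : ∀ i : Fin p, ∃ F ⊆ P ⁻¹' {i}, IsClosed F ∧
      μ ((P ⁻¹' {i}) \ F) < ENNReal.ofReal (η / (p + 1)) := fun i =>
    (hPm i).exists_isClosed_diff_lt (measure_ne_top _ _)
      (by rw [Ne, ENNReal.ofReal_eq_zero, not_le]; positivity)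
  choose C hCsub hCcl hCμ using hcl
  set D : Set X := ⋃ i, C i with hD
  have hDm : MeasurableSet D := MeasurableSet.iUnion fun i => (hCcl i).measurableSet
  have hDμ : μ.real Dᶜ ≤ η := by
    have hsub : Dᶜ ⊆ ⋃ i : Fin p, ((P ⁻¹' {i}) \ C i) := by
      intro x hx
      rw [mem_iUnion]
      refine ⟨P x, rfl, fun hc => hx ?_⟩
      exact mem_iUnion.mpr ⟨P x, hc⟩
    have h5 : μ Dᶜ ≤ ENNReal.ofReal η := by
      refine (measure_mono hsub).trans ((measure_iUnion_fintype_le _ _).trans ?_)
      refine (Finset.sum_le_sum fun i _ => (hCμ i).le).trans ?_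
      rw [Finset.sum_const, Finset.card_univ, Fintype.card_fin, nsmul_eq_mul,
        ← ENNReal.ofReal_natCast, ← ENNReal.ofReal_mul (by positivity)]
      apply ENNReal.ofReal_le_ofReal
      rw [mul_div_assoc', div_le_iff₀ (by positivity)]
      nlinarith
    exact ENNReal.toReal_le_of_le_ofReal hη0.le h5
  -- distance of the closed sets
  have hdist : ∀ q : Fin p × Fin p, ∃ r : ℝ, 0 < r ∧ (q.1 ≠ q.2 → ∀ x ∈ C q.1, ∀ y ∈ C q.2,
      r < dist x y) := by
    intro q
    by_cases hq : q.1 = q.2
    · exact ⟨1, one_pos, fun h => absurd hq h⟩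
    · have hdisj : Disjoint (C q.1) (C q.2) := by
        rw [Set.disjoint_left]
        intro x hx hx'
        have a1 : P x = q.1 := hCsub _ hx
        have a2 : P x = q.2 := hCsub _ hx'
        exact hq (a1.symm.trans a2)
      obtain ⟨r, hr, hr'⟩ := Metric.exists_pos_forall_lt_edist (hCcl q.1).isCompact (hCcl q.2) hdisj
      refine ⟨r, by exact_mod_cast hr, fun _ x hx y hy => ?_⟩
      have := hr' x hx y hy
      rw [edist_nndist] at this
      have h6 : r < nndist x y := by exact_mod_cast this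
      have h7 : (r : ℝ) < (nndist x y : ℝ) := by exact_mod_cast h6
      simpa using h7
  choose r hr0 hr using hdist
  obtain ⟨δ₀, hδ₀, hδ₀'⟩ := exists_pos_le_of_finite r hr0
  obtain ⟨δ, hδ, N, κ, E, hκ, hE, hκd, hEd, hEμ, hElog⟩ := H (min η (ε / 8))
    (lt_min hη0 (by positivity)) δ₀ hδ₀
  have hEμ1 : μ.real E ≤ η := hEμ.trans (min_le_left _ _)
  have hElog1 : μ.real E * Real.log N ≤ ε / 8 := hElog.trans (min_le_right _ _)
  -- the code
  set ζ₁ : X → Option (Fin N) := fun x => if x ∈ E then some (κ x) else none with hζ₁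
  set ζ₂ : X → Option (Fin p) := fun x => if x ∈ D then none else some (P x) with hζ₂
  have hn1 : ζ₁ ⁻¹' {none} = Eᶜ := by
    ext x
    simp only [mem_preimage, mem_singleton_iff, mem_compl_iff, hζ₁]
    by_cases hx : x ∈ E <;> simp [hx]
  have hn2 : ζ₂ ⁻¹' {none} = D := by
    ext x
    simp only [mem_preimage, mem_singleton_iff, hζ₂]
    by_cases hx : x ∈ D <;> simp [hx]
  have hm1 : ∀ a, MeasurableSet (ζ₁ ⁻¹' {a}) := by
    intro a
    cases a with
    | none => rw [hn1]; exact hE.compl
    | some j =>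
      have : ζ₁ ⁻¹' {some j} = E ∩ κ ⁻¹' {j} := by
        ext x
        simp only [mem_preimage, mem_singleton_iff, mem_inter_iff, hζ₁]
        by_cases hx : x ∈ E <;> simp [hx]
      rw [this]
      exact hE.inter (hκ (measurableSet_singleton j))
  have hm2 : ∀ a, MeasurableSet (ζ₂ ⁻¹' {a}) := by
    intro a
    cases a with
    | none => rw [hn2]; exact hDm
    | some j =>
      have : ζ₂ ⁻¹' {some j} = Dᶜ ∩ P ⁻¹' {j} := by
        ext x
        simp only [mem_preimage, mem_singleton_iff, mem_inter_iff, mem_compl_iff, hζ₂]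
        by_cases hx : x ∈ D <;> simp [hx]
      rw [this]
      exact hDm.compl.inter (hPm j)
  set ζ : X → Option (Fin N) × Option (Fin p) := fun x => (ζ₁ x, ζ₂ x) with hζ
  have hm : ∀ a, MeasurableSet (ζ ⁻¹' {a}) := by
    rintro ⟨a, b⟩
    have : ζ ⁻¹' {(a, b)} = ζ₁ ⁻¹' {a} ∩ ζ₂ ⁻¹' {b} := by
      ext x; simp [hζ]
    rw [this]
    exact (hm1 a).inter (hm2 b)
  have hent : shannonEntropy μ ζ ≤ ε / 2 := by
    have a1 := h2 X _ _ μ ζ₁ ζ₂ hm1 hm2
    have a2 := h4 X (Fin N) μ ζ₁ hm1
    have a3 := h4 X (Fin p) μ ζ₂ hm2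
    rw [hn1] at a2
    rw [hn2] at a3
    have b1 : μ.real Eᶜ = 1 - μ.real E := probReal_compl_eq_one_sub hE
    have b2 : μ.real D = 1 - μ.real Dᶜ := by
      have := probReal_compl_eq_one_sub (μ := μ) hDm
      linarith
    rw [b1] at a2
    rw [b2] at a3
    simp only [Fintype.card_fin, sub_sub_cancel] at a2 a3
    have c1 := hsmall (μ.real E) measureReal_nonneg (lt_of_le_of_lt hEμ1 hηη₁)
    have c2 := hsmall (μ.real Dᶜ) measureReal_nonneg (lt_of_le_of_lt hDμ hηη₁)
    have c3 : μ.real Dᶜ * Real.log p ≤ ε / 8 :=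
      (mul_le_mul_of_nonneg_right hDμ hLp0).trans hηL
    have a1' : shannonEntropy μ ζ ≤ shannonEntropy μ ζ₁ + shannonEntropy μ ζ₂ := a1
    linarith
  -- determination
  have hdet : ∀ n : ℕ, ∀ x x' : X, (itinerary f ζ n x, κ (f^[n] x)) =
      (itinerary f ζ n x', κ (f^[n] x')) → itinerary f P n x = itinerary f P n x' := by
    intro n x x' h
    simp only [Prod.mk.injEq] at h
    have hζeq : ∀ i < n, ζ (f^[i] x) = ζ (f^[i] x') := fun i hi => congrFun h.1 ⟨i, hi⟩
    have hclose : ∀ j ≤ n, dist (f^[n - j] x) (f^[n - j] x') ≤ δ := by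
      intro j
      induction j with
      | zero =>
        intro _
        rw [Nat.sub_zero]
        exact hκd _ _ h.2
      | succ j ih =>
        intro hj
        have ih' := ih (by omega)
        have hlt : n - (j + 1) < n := by omega
        have hz := hζeq _ hlt
        set i := n - (j + 1) with hi
        have hi1 : n - j = i + 1 := by omega
        rw [hi1, Function.iterate_succ_apply', Function.iterate_succ_apply'] at ih'
        have hz1 : ζ₁ (f^[i] x) = ζ₁ (f^[i] x') := (Prod.mk.inj hz).1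
        simp only [hζ₁] at hz1
        by_cases hx : f^[i] x ∈ E
        · by_cases hx' : f^[i] x' ∈ E
          · rw [if_pos hx, if_pos hx'] at hz1
            exact hκd _ _ (Option.some.inj hz1)
          · rw [if_pos hx, if_neg hx'] at hz1
            exact absurd hz1 (by simp)
        · by_cases hx' : f^[i] x' ∈ E
          · rw [if_neg hx, if_pos hx'] at hz1
            exact absurd hz1 (by simp)
          · exact hEd _ _ hx hx' ih'
    funext j
    have hj := j.2
    have hc := hclose (n - j) (by omega)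
    have hnj : n - (n - (j : ℕ)) = j := by omega
    rw [hnj] at hc
    have hz := hζeq j hj
    have hz2 : ζ₂ (f^[j] x) = ζ₂ (f^[j] x') := (Prod.mk.inj hz).2
    simp only [hζ₂] at hz2
    show P (f^[j] x) = P (f^[j] x')
    by_cases hx : f^[j] x ∈ D
    · by_cases hx' : f^[j] x' ∈ D
      · obtain ⟨i1, hi1⟩ := mem_iUnion.mp hx
        obtain ⟨i2, hi2⟩ := mem_iUnion.mp hx'
        have p1 : P (f^[j] x) = i1 := hCsub _ hi1
        have p2 : P (f^[j] x') = i2 := hCsub _ hi2
        rw [p1, p2]
        by_contra hne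
        have := hr (i1, i2) hne _ hi1 _ hi2
        have h8 := hδ₀' (i1, i2)
        linarith
      · rw [if_pos hx, if_neg hx'] at hz2
        exact absurd hz2 (by simp)
    · by_cases hx' : f^[j] x' ∈ D
      · rw [if_neg hx, if_pos hx'] at hz2
        exact absurd hz2 (by simp)
      · rw [if_neg hx, if_neg hx'] at hz2
        exact Option.some.inj hz2
  -- the bound for the itineraries
  have hbound : ∀ n : ℕ, shannonEntropy μ (itinerary f P n) ≤ n * (ε / 2) + Real.log N := by
    intro n
    have hκm : ∀ a, MeasurableSet ((fun x => κ (f^[n] x)) ⁻¹' {a}) := fun a =>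
      (hf.iterate n).measurable (hκ (measurableSet_singleton a))
    have hfi := fiber_itinerary hf.measurable ζ hm n
    have a1 := h1 X _ _ μ (fun x => (itinerary f ζ n x, κ (f^[n] x))) (itinerary f P n) (by
      rintro ⟨w, a⟩
      have : (fun x => (itinerary f ζ n x, κ (f^[n] x))) ⁻¹' {(w, a)} =
          itinerary f ζ n ⁻¹' {w} ∩ (fun x => κ (f^[n] x)) ⁻¹' {a} := by
        ext x; simp
      rw [this]
      exact (hfi w).inter (hκm a)) (hdet n)
    have a2 := h2 X _ _ μ (itinerary f ζ n) (fun x => κ (f^[n] x)) hfi hκm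
    have a3 := shannon_itinerary_le h1 h2 h3 μ hf ζ hm n
    have a4 := h3 X (Fin N) μ (fun x => κ (f^[n] x)) hκm
    rw [Fintype.card_fin] at a4
    have a5 : (n : ℝ) * shannonEntropy μ ζ ≤ n * (ε / 2) :=
      mul_le_mul_of_nonneg_left hent (Nat.cast_nonneg n)
    linarith
  obtain ⟨n₀, hn₀⟩ := exists_nat_gt (2 * Real.log N / ε)
  filter_upwards [eventually_ge_atTop (max n₀ 1)] with n hn
  have hn1 : 1 ≤ n := (le_max_right _ _).trans hn
  have hn2 : n₀ ≤ n := (le_max_left _ _).trans hn
  have hnpos : (0 : ℝ) < n := by exact_mod_cast hn1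
  have hn3 : 2 * Real.log N / ε < n := lt_of_lt_of_le hn₀ (by exact_mod_cast hn2)
  rw [div_lt_iff₀ hε] at hn3
  rw [div_le_iff₀ hnpos]
  have := hbound n
  nlinarith

end Pool.Agent.Q233.GE
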