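import Pool.Agent.Q233.GE.Stm

/-! Project GE (MP_8a7b28_an): existence of the model function. -/

set_option autoImplicit false

open MeasureTheory Set Filter Topology

namespace Pool.Agent.Q233.GE

/-- the operator whose fixed point is the model function -/
noncomputable def Psi (G : ℝ → ℝ) (x : ℝ) : ℝ :=
  if x ≤ 1 / 10 then G (10 * x) / 2
  else if x ≤ 2 / 10 then (1 + G (10 * x - 1)) / 2
  else if x ≤ 4 / 10 then 2 - 5 * x
  else if x ≤ 5 / 10 then G (10 * x - 4) / 2
  else if x ≤ 6 / 10 then (1 + G (10 * x - 5)) / 2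
  else if x ≤ 8 / 10 then 4 - 5 * x
  else if x ≤ 9 / 10 then G (10 * x - 8) / 2
  else (1 + G (10 * x - 9)) / 2

/-- the functions considered -/
def Adm (G : ℝ → ℝ) : Prop :=
  Continuous G ∧ (∀ x ≤ 0, G x = 0) ∧ (∀ x, 1 ≤ x → G x = 1) ∧ ∀ x, 0 ≤ G x ∧ G x ≤ 1

lemma Psi_continuous {G : ℝ → ℝ} (h : Adm G) : Continuous (Psi G) := by
  obtain ⟨hc, h0, h1, _⟩ := h
  have g0 : G 0 = 0 := h0 0 le_rfl
  have g1 : G 1 = 1 := h1 1 le_rfl
  have c (d : ℝ) : Continuous fun x : ℝ => G (10 * x - d) := hc.comp (by fun_prop)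
  have c0 : Continuous fun x : ℝ => G (10 * x) := hc.comp (by fun_prop)
  unfold Psi
  refine Continuous.if_le (c0.div_const _) ?_ continuous_id continuous_const ?_
  refine Continuous.if_le (by fun_prop) ?_ continuous_id continuous_const ?_
  refine Continuous.if_le (by fun_prop) ?_ continuous_id continuous_const ?_
  refine Continuous.if_le (by fun_prop) ?_ continuous_id continuous_const ?_
  refine Continuous.if_le (by fun_prop) ?_ continuous_id continuous_const ?_
  refine Continuous.if_le (by fun_prop) ?_ continuous_id continuous_const ?_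
  refine Continuous.if_le (by fun_prop) (by fun_prop) continuous_id continuous_const ?_
  all_goals
    intro x hx
    subst hx
    norm_num [g0, g1]

lemma Psi_adm {G : ℝ → ℝ} (h : Adm G) : Adm (Psi G) := by
  refine ⟨Psi_continuous h, ?_, ?_, ?_⟩
  · obtain ⟨hc, h0, h1, h2⟩ := h
    intro x hx
    rw [Psi, if_pos (by linarith), h0 _ (by linarith)]
    norm_num
  · obtain ⟨hc, h0, h1, h2⟩ := h
    intro x hx
    rw [Psi, if_neg (by linarith), if_neg (by linarith), if_neg (by linarith),
      if_neg (by linarith), if_neg (by linarith), if_neg (by linarith), if_neg (by linarith),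
      h1 _ (by linarith)]
    norm_num
  · obtain ⟨hc, h0, h1, h2⟩ := h
    intro x
    unfold Psi
    have a1 := h2 (10 * x)
    have a2 := h2 (10 * x - 1)
    have a3 := h2 (10 * x - 4)
    have a4 := h2 (10 * x - 5)
    have a5 := h2 (10 * x - 8)
    have a6 := h2 (10 * x - 9)
    split_ifs <;> constructor <;> linarith [a1.1, a1.2, a2.1, a2.2, a3.1, a3.2, a4.1, a4.2,
      a5.1, a5.2, a6.1, a6.2]

lemma Psi_sub {G H : ℝ → ℝ} {c : ℝ} (h : ∀ x, |G x - H x| ≤ c) (x : ℝ) :
    |Psi G x - Psi H x| ≤ c / 2 := by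
  have hc : 0 ≤ c := (abs_nonneg _).trans (h 0)
  have a1 := abs_le.mp (h (10 * x))
  have a2 := abs_le.mp (h (10 * x - 1))
  have a3 := abs_le.mp (h (10 * x - 4))
  have a4 := abs_le.mp (h (10 * x - 5))
  have a5 := abs_le.mp (h (10 * x - 8))
  have a6 := abs_le.mp (h (10 * x - 9))
  unfold Psi
  rw [abs_le]
  split_ifs <;> constructor <;> linarith [a1.1, a1.2, a2.1, a2.2, a3.1, a3.2, a4.1, a4.2,
      a5.1, a5.2, a6.1, a6.2]

/-- the iterates -/
noncomputable def Gs : ℕ → ℝ → ℝ
  | 0 => fun x => max 0 (min x 1)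
  | (k + 1) => Psi (Gs k)

lemma Gs_adm (k : ℕ) : Adm (Gs k) := by
  induction k with
  | zero =>
    refine ⟨?_, ?_, ?_, ?_⟩
    · show Continuous fun x : ℝ => max 0 (min x 1)
      fun_prop
    · intro x hx
      show max 0 (min x 1) = 0
      rw [max_eq_left]
      exact (min_le_left _ _).trans hx
    · intro x hx
      show max 0 (min x 1) = 1
      rw [min_eq_right hx]; norm_num
    · intro x
      show 0 ≤ max 0 (min x 1) ∧ max 0 (min x 1) ≤ 1
      exact ⟨le_max_left _ _, max_le (by norm_num) (min_le_right _ _)⟩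
  | succ k ih => exact Psi_adm ih

lemma Gs_sub (k : ℕ) (x : ℝ) : |Gs (k + 1) x - Gs k x| ≤ (1 / 2) ^ k := by
  induction k generalizing x with
  | zero =>
    have h1 := (Gs_adm 1).2.2.2 x
    have h2 := (Gs_adm 0).2.2.2 x
    rw [pow_zero, abs_le]
    constructor <;> linarith [h1.1, h1.2, h2.1, h2.2]
  | succ k ih =>
    have := Psi_sub ih x
    rw [pow_succ]
    calc |Gs (k + 1 + 1) x - Gs (k + 1) x| = |Psi (Gs (k + 1)) x - Psi (Gs k) x| := rfl
      _ ≤ (1 / 2) ^ k / 2 := this
      _ = (1 / 2) ^ k * (1 / 2) := by ring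

theorem model : S_model := by
  have hdist : ∀ x : ℝ, ∀ k : ℕ, dist (Gs k x) (Gs (k + 1) x) ≤ 1 * (1 / 2) ^ k := by
    intro x k
    rw [dist_comm, Real.dist_eq, one_mul]
    exact Gs_sub k x
  have hcau : ∀ x : ℝ, CauchySeq fun k => Gs k x := fun x =>
    cauchySeq_of_le_geometric (1 / 2) 1 (by norm_num) (hdist x)
  choose G hG using fun x => cauchySeq_tendsto_of_complete (hcau x)
  have hunif : ∀ (k : ℕ) (x : ℝ), |Gs k x - G x| ≤ 2 * (1 / 2) ^ k := by
    intro k x
    have := dist_le_of_le_geometric_of_tendsto (1 / 2) 1 (by norm_num) (hdist x) (hG x) k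
    rw [Real.dist_eq] at this
    calc |Gs k x - G x| ≤ 1 * (1 / 2) ^ k / (1 - 1 / 2) := this
      _ = 2 * (1 / 2) ^ k := by ring
  have hTU : TendstoUniformly (fun k x => Gs k x) G atTop := by
    rw [Metric.tendstoUniformly_iff]
    intro ε hε
    obtain ⟨n, hn⟩ := exists_pow_lt_of_lt_one (x := ε / 2) (by linarith)
      (by norm_num : (1 / 2 : ℝ) < 1)
    filter_upwards [eventually_ge_atTop n] with k hk x
    rw [dist_comm, Real.dist_eq]
    have h1 := hunif k x
    have h2 : (1 / 2 : ℝ) ^ k ≤ (1 / 2) ^ n :=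
      pow_le_pow_of_le_one (by norm_num) (by norm_num) hk
    linarith
  have hcont : Continuous G := hTU.continuous (Eventually.frequently
    (Eventually.of_forall fun k => (Gs_adm k).1))
  have hfix : ∀ x, G x = Psi G x := by
    intro x
    have h1 : Tendsto (fun k => Gs (k + 1) x) atTop (𝓝 (G x)) := (hG x).comp (tendsto_add_atTop_nat 1)
    have h2 : Tendsto (fun k => Gs (k + 1) x) atTop (𝓝 (Psi G x)) := by
      rw [tendsto_iff_dist_tendsto_zero]
      have hb : Tendsto (fun k : ℕ => 2 * (1 / 2 : ℝ) ^ k / 2) atTop (𝓝 0) := by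
        have := (tendsto_pow_atTop_nhds_zero_of_lt_one (r := (1 / 2 : ℝ)) (by norm_num)
          (by norm_num)).const_mul 2
        have := this.div_const 2
        simpa using this
      refine squeeze_zero (fun _ => dist_nonneg) (fun k => ?_) hb
      rw [Real.dist_eq]
      exact Psi_sub (hunif k) x
    exact tendsto_nhds_unique h1 h2
  have hrange : ∀ x, 0 ≤ G x ∧ G x ≤ 1 := by
    intro x
    constructor
    · exact ge_of_tendsto' (hG x) fun k => ((Gs_adm k).2.2.2 x).1
    · exact le_of_tendsto' (hG x) fun k => ((Gs_adm k).2.2.2 x).2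
  have g0 : G 0 = 0 := by
    refine tendsto_nhds_unique (hG 0) ?_
    have : (fun k => Gs k 0) = fun _ => (0 : ℝ) := by
      funext k; exact (Gs_adm k).2.1 0 le_rfl
    rw [this]; exact tendsto_const_nhds
  have g1 : G 1 = 1 := by
    refine tendsto_nhds_unique (hG 1) ?_
    have : (fun k => Gs k 1) = fun _ => (1 : ℝ) := by
      funext k; exact (Gs_adm k).2.2.1 1 le_rfl
    rw [this]; exact tendsto_const_nhds
  refine ⟨G, hcont, fun x _ => hrange x, ?_, ?_, ?_⟩
  · intro e h he hh x hx
    rw [hfix ((4 * e + h + x) / 10)]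
    rcases eq_or_lt_of_le hx.1 with hx0 | hx0
    · rw [← hx0, g0]
      interval_cases e <;> interval_cases h <;> unfold Psi <;> norm_num [g0, g1]
    · obtain ⟨_, hx1⟩ := hx
      interval_cases e <;> interval_cases h <;> push_cast
      · rw [Psi, if_pos (by linarith)]
        congr 1
        rw [zero_add]
        congr 1; ring
      · rw [Psi, if_neg (by linarith), if_pos (by linarith)]
        congr 3; ring
      · rw [Psi, if_neg (by linarith), if_neg (by linarith), if_neg (by linarith),
          if_pos (by linarith)]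
        congr 1
        rw [zero_add]
        congr 1; ring
      · rw [Psi, if_neg (by linarith), if_neg (by linarith), if_neg (by linarith),
          if_neg (by linarith), if_pos (by linarith)]
        congr 3; ring
      · rw [Psi, if_neg (by linarith), if_neg (by linarith), if_neg (by linarith),
          if_neg (by linarith), if_neg (by linarith), if_neg (by linarith), if_pos (by linarith)]
        congr 1
        rw [zero_add]
        congr 1; ring
      · rw [Psi, if_neg (by linarith), if_neg (by linarith), if_neg (by linarith),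
          if_neg (by linarith), if_neg (by linarith), if_neg (by linarith), if_neg (by linarith)]
        congr 3; ring
  · intro y hy
    rw [hfix ((4 - 2 * y) / 10)]
    rcases eq_or_lt_of_le hy.2 with hy1 | hy1
    · rw [hy1]; unfold Psi; norm_num [g0, g1]
    · rw [Psi, if_neg (by linarith), if_neg (by linarith), if_pos (by linarith [hy.1])]
      ring
  · intro y hy
    rw [hfix ((8 - 2 * y) / 10)]
    rcases eq_or_lt_of_le hy.2 with hy1 | hy1
    · rw [hy1]; unfold Psi; norm_num [g0, g1]
    · rw [Psi, if_neg (by linarith), if_neg (by linarith [hy.1]), if_neg (by linarith [hy.1]),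
        if_neg (by linarith), if_neg (by linarith), if_pos (by linarith [hy.1])]
      ring

end Pool.Agent.Q233.GE
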