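import Pool.Agent.Q233.GE.Stm

/-! Project GE (MP_8a7b28_an): the selection function. -/

set_option autoImplicit false

open MeasureTheory Set Filter Topology

namespace Pool.Agent.Q233.GE

lemma two_le_R (t : ℕ) : 2 ≤ R t := by
  unfold R
  calc 2 = 2 ^ 1 := by norm_num
    _ ≤ 2 ^ (2 ^ t) := Nat.pow_le_pow_right (by norm_num) Nat.one_le_two_pow

lemma R_pos (t : ℕ) : 0 < R t := by have := two_le_R t; omega

lemma R_grow (t j : ℕ) : 2 ^ j * R (t + 1) ≤ R (t + 1 + j) := by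
  unfold R
  rw [← pow_add]
  apply Nat.pow_le_pow_right (by norm_num)
  have h1 : j + 1 ≤ 2 ^ j := Nat.lt_two_pow_self
  have h2 : 1 ≤ 2 ^ (t + 1) := Nat.one_le_two_pow
  rw [pow_add 2 (t + 1) j]
  nlinarith

lemma R_succ (t : ℕ) : R (t + 1) = R t ^ 2 := by
  unfold R
  rw [← pow_mul, pow_succ]

/-- points of `[0,1)` special at stage `s` -/
def B (s : ℕ) : Set ℝ := {z : ℝ | z ∈ Ico (0 : ℝ) 1 ∧ Nst s z < R s}

/-- points of `[0,1)` special at some stage after `t` -/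
def Bad (t : ℕ) : Set ℝ := {z : ℝ | z ∈ Ico (0 : ℝ) 1 ∧ ∃ s, t < s ∧ Nst s z < R s}

lemma measurable_Nst (t : ℕ) : Measurable (Nst t) := by
  unfold Nst
  have h1 : Measurable (fun y : ℝ => ⌊(R t : ℝ) ^ 8 * y⌋₊) :=
    Nat.measurable_floor.comp (measurable_const.mul measurable_id)
  exact (Measurable.of_discrete (f := fun n : ℕ => n % (R t) ^ 7)).comp h1

lemma volume_B (s : ℕ) : volume (B s) ≤ ENNReal.ofReal (1 / (R s : ℝ) ^ 6) := by
  set r := R s with hr
  have hr0 : 0 < r := R_pos s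
  have hr0' : (0 : ℝ) < r := by exact_mod_cast hr0
  have hsub : B s ⊆ ⋃ p ∈ Finset.range r ×ˢ Finset.range r,
      Ico (((p.1 * r ^ 7 + p.2 : ℕ) : ℝ) / (r : ℝ) ^ 8)
        ((((p.1 * r ^ 7 + p.2 : ℕ) : ℝ) + 1) / (r : ℝ) ^ 8) := by
    rintro z ⟨hz, hz2⟩
    have hz3 : ⌊(r : ℝ) ^ 8 * z⌋₊ % r ^ 7 < r := hz2
    set q := ⌊(r : ℝ) ^ 8 * z⌋₊ with hq
    have hp8 : (0 : ℝ) < (r : ℝ) ^ 8 := by positivity
    have hq1 : (q : ℝ) ≤ (r : ℝ) ^ 8 * z := Nat.floor_le (mul_nonneg hp8.le hz.1)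
    have hq2 : (r : ℝ) ^ 8 * z < q + 1 := Nat.lt_floor_add_one _
    have hq3 : q < r ^ 8 := by
      have : (q : ℝ) < (r : ℝ) ^ 8 := by nlinarith [hz.2]
      exact_mod_cast this
    have hj : q / r ^ 7 < r := by
      rw [Nat.div_lt_iff_lt_mul (by positivity)]
      calc q < r ^ 8 := hq3
        _ = r * r ^ 7 := by ring
    have he : q / r ^ 7 * r ^ 7 + q % r ^ 7 = q := Nat.div_add_mod' q (r ^ 7)
    rw [mem_iUnion₂]
    refine ⟨(q / r ^ 7, q % r ^ 7), ?_, ?_⟩
    · simp only [Finset.mem_product, Finset.mem_range]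
      exact ⟨hj, hz3⟩
    · simp only []
      rw [he, mem_Ico, div_le_iff₀ hp8, lt_div_iff₀ hp8]
      constructor <;> linarith
  refine (measure_mono hsub).trans ?_
  refine (measure_biUnion_finset_le _ _).trans ?_
  have hint : ∀ p ∈ Finset.range r ×ˢ Finset.range r,
      volume (Ico (((p.1 * r ^ 7 + p.2 : ℕ) : ℝ) / (r : ℝ) ^ 8)
        ((((p.1 * r ^ 7 + p.2 : ℕ) : ℝ) + 1) / (r : ℝ) ^ 8)) = ENNReal.ofReal (1 / (r : ℝ) ^ 8) := by
    intro p _
    rw [Real.volume_Ico]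
    congr 1
    ring
  rw [Finset.sum_congr rfl hint, Finset.sum_const, Finset.card_product, Finset.card_range,
    nsmul_eq_mul, ← ENNReal.ofReal_natCast, ← ENNReal.ofReal_mul (by positivity)]
  apply ENNReal.ofReal_le_ofReal
  push_cast
  rw [mul_one_div, div_le_div_iff₀ (by positivity) (by positivity)]
  apply le_of_eq; ring

lemma volume_Bad (t : ℕ) : volume (Bad t) ≤ ENNReal.ofReal (2 / (R t : ℝ) ^ 12) := by
  have hsub : Bad t ⊆ ⋃ j : ℕ, B (t + 1 + j) := by
    rintro z ⟨hz, s, hs, hz2⟩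
    rw [mem_iUnion]
    refine ⟨s - (t + 1), ?_⟩
    have : t + 1 + (s - (t + 1)) = s := by omega
    rw [this]
    exact ⟨hz, hz2⟩
  have hR : (0 : ℝ) < R t := by exact_mod_cast R_pos t
  have hb : ∀ j : ℕ, volume (B (t + 1 + j)) ≤
      ENNReal.ofReal (1 / (R t : ℝ) ^ 12 * (1 / 2) ^ j) := by
    intro j
    refine (volume_B _).trans (ENNReal.ofReal_le_ofReal ?_)
    have h1 : (2 : ℝ) ^ j * (R t : ℝ) ^ 2 ≤ R (t + 1 + j) := by
      have := R_grow t j
      rw [R_succ] at this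
      exact_mod_cast this
    have h2 : ((2 : ℝ) ^ j * (R t : ℝ) ^ 2) ^ 6 ≤ (R (t + 1 + j) : ℝ) ^ 6 :=
      pow_le_pow_left₀ (by positivity) h1 6
    have h3 : (1 : ℝ) / (R (t + 1 + j) : ℝ) ^ 6 ≤ 1 / ((2 : ℝ) ^ j * (R t : ℝ) ^ 2) ^ 6 :=
      one_div_le_one_div_of_le (by positivity) h2
    refine h3.trans ?_
    have h4 : (2 : ℝ) ^ j ≤ ((2 : ℝ) ^ j) ^ 6 := le_self_pow₀ (one_le_pow₀ (by norm_num)) (by norm_num)
    have e2 : 1 / (R t : ℝ) ^ 12 * (1 / 2) ^ j = 1 / ((R t : ℝ) ^ 12 * 2 ^ j) := by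
      rw [one_div_pow, one_div_mul_one_div]
    rw [e2]
    apply one_div_le_one_div_of_le (by positivity)
    rw [mul_pow, mul_comm]
    apply mul_le_mul h4 (le_of_eq (by ring)) (by positivity) (by positivity)
  calc volume (Bad t) ≤ volume (⋃ j : ℕ, B (t + 1 + j)) := measure_mono hsub
    _ ≤ ∑' j : ℕ, volume (B (t + 1 + j)) := measure_iUnion_le _
    _ ≤ ∑' j : ℕ, ENNReal.ofReal (1 / (R t : ℝ) ^ 12 * (1 / 2) ^ j) := ENNReal.tsum_le_tsum hb
    _ = ENNReal.ofReal (∑' j : ℕ, 1 / (R t : ℝ) ^ 12 * (1 / 2) ^ j) := by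
        rw [ENNReal.ofReal_tsum_of_nonneg (fun j => by positivity)
          (summable_geometric_two.mul_left _)]
    _ = ENNReal.ofReal (2 / (R t : ℝ) ^ 12) := by
        rw [tsum_mul_left, tsum_geometric_two]
        congr 1; ring

lemma lastStage_le {t : ℕ} {z : ℝ} (h : ∀ s, t < s → R s ≤ Nst s z) : lastStage z ≤ t :=
  Nat.sInf_le h

lemma lastStage_eq {t : ℕ} {z : ℝ} (h : ∀ s, t < s → R s ≤ Nst s z) (h2 : Nst t z < R t) :
    lastStage z = t := by
  refine le_antisymm (lastStage_le h) ?_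
  by_contra hlt
  have hmem : lastStage z ∈ {T : ℕ | ∀ s, T < s → R s ≤ Nst s z} :=
    Nat.sInf_mem ⟨t, h⟩
  have := hmem t (not_le.mp hlt)
  omega

theorem sela : S_sela := by
  intro k i n hi hn
  set t := Nat.log 2 (4 * (k + 1)) with ht
  have he1 : 2 ^ t ≤ 4 * (k + 1) := Nat.pow_log_le_self 2 (by omega)
  have he2 : 4 * (k + 1) < 2 ^ (t + 1) := Nat.lt_pow_succ_log_self (by norm_num) _
  have he3 : 2 * (k + 1) ≤ 2 ^ t := by rw [pow_succ] at he2; omega
  set e := 2 ^ t with he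
  have hRt : R t = 2 ^ e := rfl
  set r := R t with hr
  have hr0 : 0 < r := R_pos t
  have hr0' : (0 : ℝ) < r := by exact_mod_cast hr0
  have hr4 : 4 ≤ r := by
    rw [hRt]
    calc 4 = 2 ^ 2 := by norm_num
      _ ≤ 2 ^ e := Nat.pow_le_pow_right (by norm_num) (by omega)
  have hnr : n < r := by
    refine lt_of_lt_of_le hn ?_
    rw [hRt, show (4 : ℕ) = 2 ^ 2 by norm_num, ← pow_mul]
    exact Nat.pow_le_pow_right (by norm_num) (by omega)
  have hr7 : r ≤ r ^ 7 := Nat.le_self_pow (by norm_num) r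
  set i' := i * 2 ^ (e - k) with hi'
  have hrk : r = 2 ^ k * 2 ^ (e - k) := by
    rw [hRt, ← pow_add]; congr 1; omega
  have hrk' : (r : ℝ) = 2 ^ k * 2 ^ (e - k) := by exact_mod_cast hrk
  have hii : (i' : ℝ) = i * 2 ^ (e - k) := by rw [hi']; push_cast; ring
  have hp8 : (0 : ℝ) < (r : ℝ) ^ 8 := by positivity
  set V := Ico (((i' * r ^ 7 + n : ℕ) : ℝ) / (r : ℝ) ^ 8)
    ((((i' * r ^ 7 + n : ℕ) : ℝ) + 1) / (r : ℝ) ^ 8) with hV
  have h2k : (0 : ℝ) < 2 ^ k := by positivity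
  have h2ek : (0 : ℝ) < 2 ^ (e - k) := by positivity
  -- the slot lies in the dyadic interval
  have hVsub : ∀ z ∈ V, (i : ℝ) / 2 ^ k ≤ z ∧ z < (i + 1) / 2 ^ k := by
    rintro z ⟨hz1, hz2⟩
    rw [div_le_iff₀ hp8] at hz1
    rw [lt_div_iff₀ hp8] at hz2
    push_cast at hz1 hz2
    have hr7' : (0 : ℝ) < (r : ℝ) ^ 7 := by positivity
    have e8 : (r : ℝ) ^ 8 = r * (r : ℝ) ^ 7 := by ring
    rw [e8] at hz1 hz2
    constructor
    · have h1 : (i' : ℝ) ≤ z * r := by
        have hn0 : (0 : ℝ) ≤ n := by positivity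
        have : (i' : ℝ) * (r : ℝ) ^ 7 ≤ z * r * (r : ℝ) ^ 7 := by nlinarith
        exact le_of_mul_le_mul_right this hr7'
      rw [div_le_iff₀ h2k]
      rw [hii, hrk'] at h1
      have : (i : ℝ) * 2 ^ (e - k) ≤ z * 2 ^ k * 2 ^ (e - k) := by linarith
      exact le_of_mul_le_mul_right this h2ek
    · have hn1 : (n : ℝ) + 1 ≤ (r : ℝ) ^ 7 := by
        have : n + 1 ≤ r ^ 7 := le_trans hnr hr7
        exact_mod_cast this
      have h1 : z * r < (i' : ℝ) + 1 := by
        have : z * r * (r : ℝ) ^ 7 < ((i' : ℝ) + 1) * (r : ℝ) ^ 7 := by nlinarith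
        exact lt_of_mul_lt_mul_right this hr7'.le
      rw [lt_div_iff₀ h2k]
      rw [hii, hrk'] at h1
      have h3 : (1 : ℝ) ≤ 2 ^ (e - k) := one_le_pow₀ (by norm_num)
      have : z * 2 ^ k * 2 ^ (e - k) < ((i : ℝ) + 1) * 2 ^ (e - k) := by nlinarith
      exact lt_of_mul_lt_mul_right this h2ek.le
  have hVN : ∀ z ∈ V, Nst t z = n := by
    rintro z ⟨hz1, hz2⟩
    rw [div_le_iff₀ hp8] at hz1
    rw [lt_div_iff₀ hp8] at hz2
    have : ⌊(r : ℝ) ^ 8 * z⌋₊ = i' * r ^ 7 + n := by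
      rw [Nat.floor_eq_iff (by
        have : (0 : ℝ) ≤ ((i' * r ^ 7 + n : ℕ) : ℝ) := Nat.cast_nonneg _
        linarith)]
      constructor <;> linarith
    show ⌊(R t : ℝ) ^ 8 * z⌋₊ % (R t) ^ 7 = n
    rw [← hr, this]
    rw [Nat.add_comm, Nat.add_mul_mod_self_right, Nat.mod_eq_of_lt (lt_of_lt_of_le hnr hr7)]
  have hincl : V \ Bad t ⊆ {z : ℝ | (i : ℝ) / 2 ^ k ≤ z ∧ z < (i + 1) / 2 ^ k ∧ sig z = n} := by
    rintro z ⟨hz, hzb⟩
    obtain ⟨h1, h2⟩ := hVsub z hz
    refine ⟨h1, h2, ?_⟩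
    have hz01 : z ∈ Ico (0 : ℝ) 1 := by
      have hi1 : (i : ℝ) + 1 ≤ 2 ^ k := by exact_mod_cast hi
      refine ⟨le_trans (by positivity) h1, lt_of_lt_of_le h2 ?_⟩
      rw [div_le_one h2k]; exact hi1
    have hgood : ∀ s, t < s → R s ≤ Nst s z := by
      intro s hs
      by_contra hcon
      exact hzb ⟨hz01, s, hs, not_le.mp hcon⟩
    have hls : lastStage z = t := lastStage_eq hgood (by rw [hVN z hz]; exact hnr)
    rw [sig, hls, hVN z hz]
  refine le_trans ?_ (measure_mono hincl)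
  have hVvol : volume V = ENNReal.ofReal (1 / (r : ℝ) ^ 8) := by
    rw [hV, Real.volume_Ico]; congr 1; ring
  have h3 : volume V ≤ volume (V \ Bad t) + volume (Bad t) := by
    refine (measure_mono ?_).trans (measure_union_le _ _)
    intro z hz
    by_cases hb : z ∈ Bad t
    · exact Or.inr hb
    · exact Or.inl ⟨hz, hb⟩
  have h4 := volume_Bad t
  rw [← hr] at h4
  have h5 : ENNReal.ofReal (1 / (r : ℝ) ^ 8) ≤
      volume (V \ Bad t) + ENNReal.ofReal (2 / (r : ℝ) ^ 12) := by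
    rw [← hVvol]
    exact h3.trans (add_le_add_right h4 _)
  have h6 : ENNReal.ofReal (1 / (r : ℝ) ^ 8) - ENNReal.ofReal (2 / (r : ℝ) ^ 12) ≤
      volume (V \ Bad t) := tsub_le_iff_right.mpr h5
  refine le_trans ?_ h6
  rw [← ENNReal.ofReal_sub _ (by positivity)]
  apply ENNReal.ofReal_le_ofReal
  -- numerical estimate
  have hr4' : (4 : ℝ) ≤ r := by exact_mod_cast hr4
  have h7 : 2 / (r : ℝ) ^ 12 ≤ 1 / (2 * (r : ℝ) ^ 8) := by
    rw [div_le_div_iff₀ (by positivity) (by positivity)]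
    have h44 : (4 : ℝ) ^ 4 ≤ (r : ℝ) ^ 4 := pow_le_pow_left₀ (by norm_num) hr4' 4
    have e12 : (r : ℝ) ^ 12 = (r : ℝ) ^ 8 * (r : ℝ) ^ 4 := by ring
    rw [e12]; nlinarith
  have h8 : 1 / (r : ℝ) ^ 8 - 1 / (2 * (r : ℝ) ^ 8) = 1 / (2 * (r : ℝ) ^ 8) := by
    field_simp; ring
  have h9 : (1 / 2 : ℝ) ^ (40 * (k + 1)) ≤ 1 / (2 * (r : ℝ) ^ 8) := by
    have hr2 : (r : ℝ) = 2 ^ e := by exact_mod_cast hRt
    rw [one_div_pow, hr2, ← pow_mul, ← pow_succ']
    apply one_div_le_one_div_of_le (by positivity)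
    exact pow_le_pow_right₀ (by norm_num) (by omega)
  linarith

theorem selm : S_selm := by
  have hU : ∀ T : ℕ, MeasurableSet {y : ℝ | ∀ s, T < s → R s ≤ Nst s y} := by
    intro T
    have : {y : ℝ | ∀ s, T < s → R s ≤ Nst s y} = ⋂ s, ⋂ (_ : T < s), {y : ℝ | R s ≤ Nst s y} := by
      ext y; simp
    rw [this]
    refine MeasurableSet.iInter fun s => MeasurableSet.iInter fun _ => ?_
    exact measurableSet_le measurable_const (measurable_Nst s)
  have hlast : Measurable lastStage := by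
    refine measurable_to_countable' fun T => ?_
    have hmono : ∀ T' T'' : ℕ, T' ≤ T'' → ∀ y : ℝ, (∀ s, T' < s → R s ≤ Nst s y) →
        ∀ s, T'' < s → R s ≤ Nst s y := fun T' T'' h y hy s hs => hy s (lt_of_le_of_lt h hs)
    rcases Nat.eq_zero_or_pos T with rfl | hT
    · have : lastStage ⁻¹' {0} = {y : ℝ | ∀ s, 0 < s → R s ≤ Nst s y} ∪
          (⋃ T : ℕ, {y : ℝ | ∀ s, T < s → R s ≤ Nst s y})ᶜ := by
        ext y
        simp only [mem_preimage, mem_singleton_iff, mem_union, mem_compl_iff, mem_iUnion]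
        constructor
        · intro h
          rcases Nat.sInf_eq_zero.mp h with h1 | h1
          · exact Or.inl h1
          · right
            rintro ⟨T, hT⟩
            have : T ∈ {T : ℕ | ∀ s, T < s → R s ≤ Nst s y} := hT
            rw [h1] at this
            exact this
        · rintro (h | h)
          · exact Nat.sInf_eq_zero.mpr (Or.inl h)
          · refine Nat.sInf_eq_zero.mpr (Or.inr ?_)
            ext T
            simp only [mem_empty_iff_false, iff_false]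
            intro hT
            exact h ⟨T, hT⟩
      rw [this]
      exact (hU 0).union (MeasurableSet.iUnion fun T => hU T).compl
    · have : lastStage ⁻¹' {T} = {y : ℝ | ∀ s, T < s → R s ≤ Nst s y} \
          {y : ℝ | ∀ s, T - 1 < s → R s ≤ Nst s y} := by
        ext y
        simp only [mem_preimage, mem_singleton_iff]
        constructor
        · intro h
          have hne : {T : ℕ | ∀ s, T < s → R s ≤ Nst s y}.Nonempty := by
            by_contra hcon
            rw [Set.not_nonempty_iff_eq_empty] at hcon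
            have : lastStage y = 0 := by rw [lastStage, hcon]; exact Nat.sInf_empty
            omega
          have hmem := Nat.sInf_mem hne
          refine ⟨?_, fun hcon => ?_⟩
          · have : sInf {T : ℕ | ∀ s, T < s → R s ≤ Nst s y} = T := h
            rw [this] at hmem
            exact hmem
          · have := lastStage_le hcon
            omega
        · rintro ⟨h1, h2⟩
          refine le_antisymm (lastStage_le h1) ?_
          by_contra hcon
          have hmem : lastStage y ∈ {T : ℕ | ∀ s, T < s → R s ≤ Nst s y} := Nat.sInf_mem ⟨T, h1⟩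
          exact h2 (hmono (lastStage y) (T - 1) (by omega) y hmem)
      rw [this]
      exact (hU T).diff (hU (T - 1))
  refine measurable_to_countable' fun n => ?_
  have : sig ⁻¹' {n} = ⋃ T : ℕ, (lastStage ⁻¹' {T} ∩ (Nst T) ⁻¹' {n}) := by
    ext y
    simp only [mem_preimage, mem_singleton_iff, mem_iUnion, mem_inter_iff, sig]
    constructor
    · intro h; exact ⟨lastStage y, rfl, h⟩
    · rintro ⟨T, h1, h2⟩
      rw [h1]; exact h2
  rw [this]
  exact MeasurableSet.iUnion fun T => (hlast (measurableSet_singleton T)).inter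
    (measurable_Nst T (measurableSet_singleton n))

end Pool.Agent.Q233.GE
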