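import Pool.Agent.Q233.GE.Sel

/-! Project GE (MP_8a7b28_an): the label is locally constant on a large set. -/

set_option autoImplicit false

open MeasureTheory Set Filter Topology

namespace Pool.Agent.Q233.GE

/-- points whose fractional part of `Q z` is near an integer have small measure -/
lemma volume_frac (Q : ℕ) (hQ : 0 < Q) (η : ℝ) (_hη : 0 ≤ η) :
    volume {z : ℝ | z ∈ Ico (0 : ℝ) 1 ∧ ¬ (η ≤ Int.fract (Q * z) ∧ Int.fract (Q * z) ≤ 1 - η)} ≤
      ENNReal.ofReal (2 * η) := by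
  have hQ' : (0 : ℝ) < Q := by exact_mod_cast hQ
  have hsub : {z : ℝ | z ∈ Ico (0 : ℝ) 1 ∧
      ¬ (η ≤ Int.fract (Q * z) ∧ Int.fract (Q * z) ≤ 1 - η)} ⊆
      ⋃ i ∈ Finset.range Q, (Icc ((i : ℝ) / Q) ((i + η) / Q) ∪
        Icc ((i + 1 - η) / Q) (((i : ℝ) + 1) / Q)) := by
    rintro z ⟨hz, hz2⟩
    have h0 : 0 ≤ (Q : ℝ) * z := mul_nonneg hQ'.le hz.1
    set i := ⌊(Q : ℝ) * z⌋₊ with hi
    have hi1 : (i : ℝ) ≤ Q * z := Nat.floor_le h0
    have hi2 : (Q : ℝ) * z < i + 1 := Nat.lt_floor_add_one _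
    have hiQ : i < Q := by
      have : (i : ℝ) < Q := by nlinarith [hz.2]
      exact_mod_cast this
    have hfr : Int.fract ((Q : ℝ) * z) = Q * z - i := by
      rw [Int.fract, ← natCast_floor_eq_intCast_floor h0]
    rw [hfr] at hz2
    rw [mem_iUnion₂]
    refine ⟨i, Finset.mem_range.mpr hiQ, ?_⟩
    rcases not_and_or.mp hz2 with h | h
    · left
      rw [mem_Icc, div_le_iff₀ hQ', le_div_iff₀ hQ']
      constructor <;> linarith
    · right
      rw [mem_Icc, div_le_iff₀ hQ', le_div_iff₀ hQ']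
      constructor <;> linarith
  refine (measure_mono hsub).trans ?_
  refine (measure_biUnion_finset_le _ _).trans ?_
  have hint : ∀ i ∈ Finset.range Q, volume (Icc ((i : ℝ) / Q) ((i + η) / Q) ∪
        Icc ((i + 1 - η) / Q) (((i : ℝ) + 1) / Q)) ≤ ENNReal.ofReal (2 * η / Q) := by
    intro i _
    refine (measure_union_le _ _).trans ?_
    rw [Real.volume_Icc, Real.volume_Icc, ← ENNReal.ofReal_add]
    · apply ENNReal.ofReal_le_ofReal
      apply le_of_eq; ring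
    · rw [← sub_div]; apply div_nonneg _ hQ'.le; linarith
    · rw [← sub_div]; apply div_nonneg _ hQ'.le; linarith
  refine (Finset.sum_le_sum hint).trans ?_
  rw [Finset.sum_const, Finset.card_range, nsmul_eq_mul, ← ENNReal.ofReal_natCast,
    ← ENNReal.ofReal_mul (by positivity)]
  apply ENNReal.ofReal_le_ofReal
  apply le_of_eq; field_simp

/-- floors at a coarser scale -/
lemma floor_coarse {P Q : ℕ} (hQ : 0 < Q) (hdvd : P ∣ Q) {y y' : ℝ}
    (h : ⌊(Q : ℝ) * y⌋₊ = ⌊(Q : ℝ) * y'⌋₊) : ⌊(P : ℝ) * y⌋₊ = ⌊(P : ℝ) * y'⌋₊ := by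
  obtain ⟨m, rfl⟩ := hdvd
  rcases Nat.eq_zero_or_pos m with rfl | hm
  · exact absurd hQ (by simp)
  · have key : ∀ w : ℝ, ⌊(P : ℝ) * w⌋₊ = ⌊((P * m : ℕ) : ℝ) * w⌋₊ / m := by
      intro w
      rw [← Nat.floor_div_natCast]
      congr 1
      have : (m : ℝ) ≠ 0 := by exact_mod_cast hm.ne'
      push_cast
      field_simp
    rw [key y, key y', h]

theorem selb : S_selb := by
  intro t
  set r := R t with hr
  have hr0 : 0 < r := R_pos t
  have hr2 : 2 ≤ r := two_le_R t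
  have hr0' : (0 : ℝ) < r := by exact_mod_cast hr0
  have hp8 : (0 : ℝ) < (r : ℝ) ^ 8 := by positivity
  set η : ℝ := 1 / (r : ℝ) ^ 8 with hη
  have hη0 : 0 < η := by positivity
  set F : Set ℝ := {z : ℝ | z ∈ Ico (0 : ℝ) 1 ∧
    ¬ (η ≤ Int.fract (((r ^ 8 : ℕ) : ℝ) * z) ∧ Int.fract (((r ^ 8 : ℕ) : ℝ) * z) ≤ 1 - η)} with hF
  set A : Set ℝ := Ico 0 1 ∩ ({z : ℝ | ∀ s, t < s → R s ≤ Nst s z} ∩
    {z : ℝ | η ≤ Int.fract (((r ^ 8 : ℕ) : ℝ) * z) ∧ Int.fract (((r ^ 8 : ℕ) : ℝ) * z) ≤ 1 - η})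
    with hA
  refine ⟨A, ?_, inter_subset_left, ?_, ?_⟩
  · refine measurableSet_Ico.inter (MeasurableSet.inter ?_ ?_)
    · have : {y : ℝ | ∀ s, t < s → R s ≤ Nst s y} =
          ⋂ s, ⋂ (_ : t < s), {y : ℝ | R s ≤ Nst s y} := by
        ext y; simp
      rw [this]
      refine MeasurableSet.iInter fun s => MeasurableSet.iInter fun _ => ?_
      exact measurableSet_le measurable_const (measurable_Nst s)
    · have hfr : Measurable (fun z : ℝ => Int.fract (((r ^ 8 : ℕ) : ℝ) * z)) :=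
        measurable_fract.comp (measurable_const.mul measurable_id)
      exact (measurableSet_le measurable_const hfr).inter (measurableSet_le hfr measurable_const)
  · have hsub : Ico (0 : ℝ) 1 \ A ⊆ Bad t ∪ F := by
      rintro z ⟨hz, hzA⟩
      by_cases h1 : ∀ s, t < s → R s ≤ Nst s z
      · right
        refine ⟨hz, fun h2 => hzA ⟨hz, h1, h2⟩⟩
      · left
        push Not at h1
        obtain ⟨s, hs, hs2⟩ := h1
        exact ⟨hz, s, hs, hs2⟩
    refine (measure_mono hsub).trans ((measure_union_le _ _).trans ?_)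
    refine (add_le_add (volume_Bad t) (volume_frac (r ^ 8) (by positivity) η hη0.le)).trans ?_
    rw [← ENNReal.ofReal_add (by positivity) (by positivity)]
    apply ENNReal.ofReal_le_ofReal
    rw [← hr, hη]
    have : 2 / (r : ℝ) ^ 12 ≤ 1 / (r : ℝ) ^ 8 := by
      rw [div_le_div_iff₀ (by positivity) (by positivity)]
      have h4 : (2 : ℝ) ≤ (r : ℝ) ^ 4 := by
        have h2' : (2 : ℝ) ≤ r := by exact_mod_cast hr2
        calc (2 : ℝ) ≤ r := h2'
          _ ≤ (r : ℝ) ^ 4 := le_self_pow₀ (by linarith) (by norm_num)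
      have e12 : (r : ℝ) ^ 12 = (r : ℝ) ^ 8 * (r : ℝ) ^ 4 := by ring
      rw [e12]; nlinarith
    have e3 : 3 / (r : ℝ) ^ 8 = 1 / (r : ℝ) ^ 8 + 2 * (1 / (r : ℝ) ^ 8) := by ring
    rw [e3]; linarith
  · rintro y ⟨hy, hyg, hyf⟩ y' ⟨hy', hyg', hyf'⟩ hyy
    have hcast : ((r ^ 8 : ℕ) : ℝ) = (r : ℝ) ^ 8 := by push_cast; ring
    -- the floors of `Q y` and `Q y'` agree
    have hfl : ⌊((r ^ 8 : ℕ) : ℝ) * y⌋₊ = ⌊((r ^ 8 : ℕ) : ℝ) * y'⌋₊ := by
      have h0 : 0 ≤ ((r ^ 8 : ℕ) : ℝ) * y := mul_nonneg (by positivity) hy.1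
      have h0' : 0 ≤ ((r ^ 8 : ℕ) : ℝ) * y' := mul_nonneg (by positivity) hy'.1
      have hf : Int.fract (((r ^ 8 : ℕ) : ℝ) * y) = ((r ^ 8 : ℕ) : ℝ) * y -
          ⌊((r ^ 8 : ℕ) : ℝ) * y⌋₊ := by
        rw [Int.fract, ← natCast_floor_eq_intCast_floor h0]
      have hf' : Int.fract (((r ^ 8 : ℕ) : ℝ) * y') = ((r ^ 8 : ℕ) : ℝ) * y' -
          ⌊((r ^ 8 : ℕ) : ℝ) * y'⌋₊ := by
        rw [Int.fract, ← natCast_floor_eq_intCast_floor h0']
      have hyf : η ≤ Int.fract (((r ^ 8 : ℕ) : ℝ) * y) ∧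
          Int.fract (((r ^ 8 : ℕ) : ℝ) * y) ≤ 1 - η := hyf
      have hyf' : η ≤ Int.fract (((r ^ 8 : ℕ) : ℝ) * y') ∧
          Int.fract (((r ^ 8 : ℕ) : ℝ) * y') ≤ 1 - η := hyf'
      rw [hf] at hyf
      rw [hf'] at hyf'
      have hd : |((r ^ 8 : ℕ) : ℝ) * y - ((r ^ 8 : ℕ) : ℝ) * y'| ≤ η := by
        rw [← mul_sub, abs_mul, hcast, abs_of_pos hp8, hη]
        have e16 : 1 / (r : ℝ) ^ 16 = 1 / (r : ℝ) ^ 8 * (1 / (r : ℝ) ^ 8) := by
          rw [one_div_mul_one_div]; congr 1; ring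
        rw [e16] at hyy
        calc (r : ℝ) ^ 8 * |y - y'| ≤ (r : ℝ) ^ 8 * (1 / (r : ℝ) ^ 8 * (1 / (r : ℝ) ^ 8)) :=
              mul_le_mul_of_nonneg_left hyy hp8.le
          _ = 1 / (r : ℝ) ^ 8 := by field_simp
      rw [abs_le] at hd
      have h1 : ((⌊((r ^ 8 : ℕ) : ℝ) * y⌋₊ : ℕ) : ℝ) < ⌊((r ^ 8 : ℕ) : ℝ) * y'⌋₊ + 1 := by
        linarith [hyf.1, hyf'.2, hd.1, hd.2]
      have h2 : ((⌊((r ^ 8 : ℕ) : ℝ) * y'⌋₊ : ℕ) : ℝ) < ⌊((r ^ 8 : ℕ) : ℝ) * y⌋₊ + 1 := by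
        linarith [hyf'.1, hyf.2, hd.1, hd.2]
      have h1' : ⌊((r ^ 8 : ℕ) : ℝ) * y⌋₊ < ⌊((r ^ 8 : ℕ) : ℝ) * y'⌋₊ + 1 := by exact_mod_cast h1
      have h2' : ⌊((r ^ 8 : ℕ) : ℝ) * y'⌋₊ < ⌊((r ^ 8 : ℕ) : ℝ) * y⌋₊ + 1 := by exact_mod_cast h2
      omega
    have hN : ∀ s ≤ t, Nst s y = Nst s y' := by
      intro s hs
      unfold Nst
      have hdvd : R s ^ 8 ∣ r ^ 8 := by
        apply pow_dvd_pow_of_dvd
        rw [hr]; unfold R
        exact pow_dvd_pow 2 (Nat.pow_le_pow_right (by norm_num) hs)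
      have := floor_coarse (P := R s ^ 8) (Q := r ^ 8) (by positivity) hdvd hfl
      push_cast at this
      rw [this]
    have hset : ∀ T : ℕ, (∀ s, T < s → R s ≤ Nst s y) ↔ (∀ s, T < s → R s ≤ Nst s y') := by
      intro T
      constructor
      · intro h s hs
        rcases le_or_gt s t with h1 | h1
        · rw [← hN s h1]; exact h s hs
        · exact hyg' s h1
      · intro h s hs
        rcases le_or_gt s t with h1 | h1
        · rw [hN s h1]; exact h s hs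
        · exact hyg s h1
    have hls : lastStage y = lastStage y' := by
      unfold lastStage
      congr 1
      ext T
      exact hset T
    have hle : lastStage y ≤ t := lastStage_le hyg
    refine ⟨?_, ?_⟩
    · unfold sig
      rw [← hls]
      exact hN _ hle
    · intro k hk
      have hsig : sig y < 4 ^ (4 * 2 ^ t) := by
        have h1 : sig y < R (lastStage y) ^ 7 := Nat.mod_lt _ (by
          have := R_pos (lastStage y); positivity)
        refine lt_of_lt_of_le h1 ?_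
        have h2 : R (lastStage y) ≤ R t := by
          unfold R
          exact Nat.pow_le_pow_right (by norm_num) (Nat.pow_le_pow_right (by norm_num) hle)
        refine (Nat.pow_le_pow_left h2 7).trans ?_
        unfold R
        rw [← pow_mul, show (4 : ℕ) = 2 ^ 2 by norm_num, ← pow_mul]
        exact Nat.pow_le_pow_right (by norm_num) (by omega)
      have hlen : (dec (sig y)).length ≤ 4 * 2 ^ t := by
        have h1 : (Nat.digits 4 (sig y)).length ≤ 4 * 2 ^ t :=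
          (Nat.digits_length_le_iff (by norm_num) _).mpr hsig
        unfold dec
        rw [List.length_dropLast]
        omega
      have hdvd : 2 ^ k ∣ r ^ 8 := by
        rw [hr]; unfold R
        rw [← pow_mul]
        exact pow_dvd_pow 2 (by omega)
      have := floor_coarse (P := 2 ^ k) (Q := r ^ 8) (by positivity) hdvd hfl
      push_cast at this
      exact this

end Pool.Agent.Q233.GE
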