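import Mathlib
import Pool.Agent.Helper179.KSDefs

/-!
Project GE (helper233, MP_8a7b28_an): there is a continuous map `f : [0,1] → [0,1]` preserving
Lebesgue measure, of metric entropy zero, whose graph has Hausdorff dimension greater than one.
Definitions and statements of the steps.
-/

set_option autoImplicit false

open MeasureTheory Set Filter Topology

namespace Pool.Agent.Q233.GE

/-! ### The selection function -/

/-- scales `R_t = 2^(2^t)` -/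
def R (t : ℕ) : ℕ := 2 ^ (2 ^ t)

/-- the slot of `y` at stage `t`: `⌊R_t^8 y⌋ mod R_t^7`; the point `y` is special at stage `t` if
this is `< R_t` -/
noncomputable def Nst (t : ℕ) (y : ℝ) : ℕ := ⌊(R t : ℝ) ^ 8 * y⌋₊ % (R t) ^ 7

/-- the last stage at which `y` is special (`0` if there is none) -/
noncomputable def lastStage (y : ℝ) : ℕ := sInf {T : ℕ | ∀ s, T < s → R s ≤ Nst s y}

/-- the label of `y` -/
noncomputable def sig (y : ℝ) : ℕ := Nst (lastStage y) y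

/-- labels as words in `{0,1,2,3}` -/
def dec (n : ℕ) : List ℕ := (Nat.digits 4 n).dropLast

/-- the inverse branch with label `L`, on the whole of `[0,1)` -/
noncomputable def tauL : List ℕ → ℝ → ℝ
  | [], y => (8 - 2 * y) / 10
  | (d :: L), y => if d < 3 then (4 * (d : ℝ) + (⌊2 * y⌋₊ : ℝ) + tauL L (Int.fract (2 * y))) / 10
      else (4 - 2 * y) / 10

/-- the section of the model function -/
noncomputable def tau (y : ℝ) : ℝ := tauL (dec (sig y)) y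

/-- The model function: continuous, self-affine over the six columns
`[(4e+h)/10, (4e+h+1)/10]`, `e < 3`, `h < 2`, and linear from `1` to `0` over `[2/10,4/10]` and
over `[6/10,8/10]`. -/
def IsModel (G : ℝ → ℝ) : Prop :=
  Continuous G ∧ (∀ x ∈ Icc (0 : ℝ) 1, G x ∈ Icc (0 : ℝ) 1) ∧
  (∀ e h : ℕ, e < 3 → h < 2 → ∀ x ∈ Icc (0 : ℝ) 1, G ((4 * e + h + x) / 10) = (h + G x) / 2) ∧
  (∀ y ∈ Icc (0 : ℝ) 1, G ((4 - 2 * y) / 10) = y) ∧
  (∀ y ∈ Icc (0 : ℝ) 1, G ((8 - 2 * y) / 10) = y)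

/-- JOB MODEL -/
def S_model : Prop := ∃ G : ℝ → ℝ, IsModel G

/-- JOB SELM -/
def S_selm : Prop := Measurable sig

/-- JOB SELA: every label below `4^(k+1)` has large measure in every dyadic interval of level `k` -/
def S_sela : Prop := ∀ k i n : ℕ, i < 2 ^ k → n < 4 ^ (k + 1) →
  ENNReal.ofReal ((1 / 2) ^ (40 * (k + 1))) ≤
    volume {z : ℝ | (i : ℝ) / 2 ^ k ≤ z ∧ z < (i + 1) / 2 ^ k ∧ sig z = n}

/-- JOB SELB: the label is locally constant on a large set, at scale `Q^(-2)`, `Q = R_t^8` -/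
def S_selb : Prop := ∀ t : ℕ, ∃ A : Set ℝ, MeasurableSet A ∧ A ⊆ Ico 0 1 ∧
  volume (Ico (0 : ℝ) 1 \ A) ≤ ENNReal.ofReal (3 / (R t : ℝ) ^ 8) ∧
  ∀ y ∈ A, ∀ y' ∈ A, |y - y'| ≤ 1 / (R t : ℝ) ^ 16 →
    sig y = sig y' ∧ ∀ k ≤ (dec (sig y)).length, ⌊2 ^ k * y⌋₊ = ⌊2 ^ k * y'⌋₊

/-- JOB TAU, four statements -/
def S_tauRange : Prop := ∀ (L : List ℕ), ∀ y ∈ Ico (0 : ℝ) 1, 0 < tauL L y ∧ tauL L y < 1

def S_tauG : Prop := ∀ G : ℝ → ℝ, IsModel G → ∀ (L : List ℕ), ∀ y ∈ Ico (0 : ℝ) 1,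
  G (tauL L y) = y

def S_tauAff : Prop := ∀ L : List ℕ, ∃ c : ℝ, 0 < c ∧ ∀ y ∈ Ico (0 : ℝ) 1, ∀ y' ∈ Ico (0 : ℝ) 1,
  ⌊2 ^ L.length * y⌋₊ = ⌊2 ^ L.length * y'⌋₊ → tauL L y' - tauL L y = - c * (y' - y)

def S_tauMeas : Prop := Measurable sig → Measurable tau

/-- JOB DENS: the branches with labels in `{0,1,2,3}` are dense -/
def S_dens : Prop := ∀ u u' : ℝ, 0 ≤ u → u < u' → u' ≤ 1 → ∃ L : List ℕ, (∀ d ∈ L, d < 4) ∧
  ∃ p q : ℝ, 0 ≤ p ∧ p < q ∧ q ≤ 1 ∧ ∀ z ∈ Ioo p q, u < tauL L z ∧ tauL L z < u'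

/-- The digit function: `X a = ∑ a_k 10^(-k)` for `a = 0.a_1 a_2 ...` in base two. -/
def IsDigitMap (X : ℝ → ℝ) : Prop := Measurable X ∧ ∀ a ∈ Ico (0 : ℝ) 1,
  0 ≤ X a ∧ X a ≤ 1 / 9 ∧ X a = ((⌊2 * a⌋₊ : ℝ) + X (Int.fract (2 * a))) / 10

/-- JOB XMAP -/
def S_xmap : Prop := ∃ X : ℝ → ℝ, IsDigitMap X

def S_xG : Prop := ∀ G X : ℝ → ℝ, IsModel G → IsDigitMap X → ∀ a ∈ Ico (0 : ℝ) 1,
  ∀ b ∈ Ico (0 : ℝ) 1, G (4 * X a + X b) = b

/-- JOB SEP: two points of the Cantor set with different addresses of level `k` are separated by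
a whole branch of level at most `k` -/
def S_sep : Prop := ∀ X : ℝ → ℝ, IsDigitMap X → ∀ k : ℕ, ∀ a ∈ Ico (0 : ℝ) 1, ∀ b ∈ Ico (0 : ℝ) 1,
  ∀ a' ∈ Ico (0 : ℝ) 1, ∀ b' ∈ Ico (0 : ℝ) 1,
  ¬ (⌊2 ^ k * a⌋₊ = ⌊2 ^ k * a'⌋₊ ∧ ⌊2 ^ k * b⌋₊ = ⌊2 ^ k * b'⌋₊) →
  ∃ L : List ℕ, L.length ≤ k ∧ (∀ d ∈ L, d < 4) ∧ ∃ i : ℕ, i < 2 ^ L.length ∧
    ∀ z : ℝ, (i : ℝ) / 2 ^ L.length ≤ z → z < (i + 1) / 2 ^ L.length →
      min (4 * X a + X b) (4 * X a' + X b') < tauL L z ∧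
      tauL L z ≤ max (4 * X a + X b) (4 * X a' + X b')

/-- JOB DIM: the dimension criterion -/
def S_dim : Prop := ∀ (Γ : Set (ℝ × ℝ)) (ξ : ℝ → ℝ → ℝ), Measurable (Function.uncurry ξ) →
  (∀ a ∈ Ico (0 : ℝ) 1, ∀ b ∈ Ico (0 : ℝ) 1, (ξ a b, b) ∈ Γ) →
  (∀ k : ℕ, ∀ a ∈ Ico (0 : ℝ) 1, ∀ b ∈ Ico (0 : ℝ) 1, ∀ a' ∈ Ico (0 : ℝ) 1, ∀ b' ∈ Ico (0 : ℝ) 1,
    |ξ a b - ξ a' b'| < (1 / 2) ^ (40 * (k + 1)) → |a - a'| ≤ (1 / 2) ^ k) →
  1 < dimH Γ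

/-! ### Entropy -/

open Pool.Agent.Helper179.KS

/-- JOB ENTA: elementary properties of Shannon entropy -/
def S_data : Prop := ∀ (Ω α β : Type) [MeasurableSpace Ω] [Fintype α] [Fintype β] (μ : Measure Ω)
  [IsProbabilityMeasure μ] (Z : Ω → α) (W : Ω → β), (∀ a, MeasurableSet (Z ⁻¹' {a})) →
  (∀ x x', Z x = Z x' → W x = W x') → shannonEntropy μ W ≤ shannonEntropy μ Z

def S_sub : Prop := ∀ (Ω α β : Type) [MeasurableSpace Ω] [Fintype α] [Fintype β] (μ : Measure Ω)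
  [IsProbabilityMeasure μ] (Z : Ω → α) (W : Ω → β), (∀ a, MeasurableSet (Z ⁻¹' {a})) →
  (∀ a, MeasurableSet (W ⁻¹' {a})) →
  shannonEntropy μ (fun x => (Z x, W x)) ≤ shannonEntropy μ Z + shannonEntropy μ W

def S_card : Prop := ∀ (Ω α : Type) [MeasurableSpace Ω] [Fintype α] (μ : Measure Ω)
  [IsProbabilityMeasure μ] (Z : Ω → α), (∀ a, MeasurableSet (Z ⁻¹' {a})) →
  shannonEntropy μ Z ≤ Real.log (Fintype.card α)

def S_opt : Prop := ∀ (Ω α : Type) [MeasurableSpace Ω] [Fintype α] (μ : Measure Ω)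
  [IsProbabilityMeasure μ] (Z : Ω → Option α), (∀ a, MeasurableSet (Z ⁻¹' {a})) →
  shannonEntropy μ Z ≤ Real.negMulLog (μ.real (Z ⁻¹' {none})) +
    Real.negMulLog (1 - μ.real (Z ⁻¹' {none})) +
    (1 - μ.real (Z ⁻¹' {none})) * Real.log (Fintype.card α)

/-- JOB ENTB: zero entropy criterion: outside a small exceptional set the inverse map contracts at
scale `δ` -/
def S_zero : Prop := ∀ (X : Type) [MetricSpace X] [CompactSpace X] [MeasurableSpace X]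
  [BorelSpace X] (μ : Measure X) [IsProbabilityMeasure μ] (f : X → X), MeasurePreserving f μ μ →
  (∀ ε > (0 : ℝ), ∀ δ₀ > (0 : ℝ), ∃ δ : ℝ, δ ≤ δ₀ ∧ ∃ (N : ℕ) (κ : X → Fin N) (E : Set X),
    Measurable κ ∧ MeasurableSet E ∧ (∀ x x', κ x = κ x' → dist x x' ≤ δ) ∧
    (∀ x x', x ∉ E → x' ∉ E → dist (f x) (f x') ≤ δ → dist x x' ≤ δ) ∧
    μ.real E ≤ ε ∧ μ.real E * Real.log N ≤ ε) →
  ksEntropy μ f = 0

/-! ### The main statement -/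

def S_main : Prop := ∃ f : C(unitInterval, unitInterval),
  MeasurePreserving f (volume : Measure unitInterval) (volume : Measure unitInterval) ∧
  1 < dimH (range fun x : unitInterval => ((x : ℝ), (f x : ℝ))) ∧
  ksEntropy (volume : Measure unitInterval) f = 0

end Pool.Agent.Q233.GE
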