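import Pool.Agent.Q233.GE.Stm

/-! Project GE (MP_8a7b28_an): the inverse branches. -/

set_option autoImplicit false

open MeasureTheory Set Filter Topology

namespace Pool.Agent.Q233.GE

lemma floor_two_lt {y : ℝ} (hy : y ∈ Ico (0 : ℝ) 1) : ⌊2 * y⌋₊ < 2 := by
  rw [Nat.floor_lt (by linarith [hy.1])]
  push_cast
  linarith [hy.2]

lemma fract_two {y : ℝ} (hy : y ∈ Ico (0 : ℝ) 1) : Int.fract (2 * y) = 2 * y - ⌊2 * y⌋₊ := by
  rw [Int.fract, ← natCast_floor_eq_intCast_floor (by linarith [hy.1])]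

lemma fract_mem (y : ℝ) : Int.fract y ∈ Ico (0 : ℝ) 1 := ⟨Int.fract_nonneg _, Int.fract_lt_one _⟩

lemma tauL_nil (y : ℝ) : tauL [] y = (8 - 2 * y) / 10 := rfl

lemma tauL_cons_lt {d : ℕ} (hd : d < 3) (L : List ℕ) (y : ℝ) :
    tauL (d :: L) y = (4 * (d : ℝ) + (⌊2 * y⌋₊ : ℝ) + tauL L (Int.fract (2 * y))) / 10 := by
  rw [tauL, if_pos hd]

lemma tauL_cons_ge {d : ℕ} (hd : ¬ d < 3) (L : List ℕ) (y : ℝ) :
    tauL (d :: L) y = (4 - 2 * y) / 10 := by
  rw [tauL, if_neg hd]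

theorem tauRange : S_tauRange := by
  intro L
  induction L with
  | nil =>
    intro y hy
    rw [tauL_nil]
    constructor <;> linarith [hy.1, hy.2]
  | cons d L ih =>
    intro y hy
    by_cases hd : d < 3
    · rw [tauL_cons_lt hd]
      have h1 := ih _ (fract_mem (2 * y))
      have h2 := floor_two_lt hy
      have h3 : ((⌊2 * y⌋₊ : ℕ) : ℝ) ≤ 1 := by
        have : ⌊2 * y⌋₊ ≤ 1 := by omega
        exact_mod_cast this
      have h4 : (0 : ℝ) ≤ (⌊2 * y⌋₊ : ℝ) := Nat.cast_nonneg _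
      have h5 : (d : ℝ) ≤ 2 := by
        have : d ≤ 2 := by omega
        exact_mod_cast this
      have h6 : (0 : ℝ) ≤ (d : ℝ) := Nat.cast_nonneg _
      constructor <;> linarith [h1.1, h1.2]
    · rw [tauL_cons_ge hd]
      constructor <;> linarith [hy.1, hy.2]

theorem tauG : S_tauG := by
  intro G hG L
  obtain ⟨_, _, h3, h4, h5⟩ := hG
  induction L with
  | nil =>
    intro y hy
    rw [tauL_nil]
    exact h5 y ⟨hy.1, hy.2.le⟩
  | cons d L ih =>
    intro y hy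
    by_cases hd : d < 3
    · rw [tauL_cons_lt hd]
      have hr := tauRange L _ (fract_mem (2 * y))
      rw [h3 d ⌊2 * y⌋₊ hd (floor_two_lt hy) _ ⟨hr.1.le, hr.2.le⟩, ih _ (fract_mem _), fract_two hy]
      ring
    · rw [tauL_cons_ge hd]
      exact h4 y ⟨hy.1, hy.2.le⟩

/-- cells at level one from cells at level `n+1` -/
lemma floor_two_of {n : ℕ} {y y' : ℝ} (h : ⌊2 ^ (n + 1) * y⌋₊ = ⌊2 ^ (n + 1) * y'⌋₊) :
    ⌊2 * y⌋₊ = ⌊2 * y'⌋₊ := by
  have key : ∀ w : ℝ, ⌊2 * w⌋₊ = ⌊2 ^ (n + 1) * w⌋₊ / 2 ^ n := by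
    intro w
    have : ⌊(2 ^ (n + 1) * w) / ((2 ^ n : ℕ) : ℝ)⌋₊ = ⌊2 ^ (n + 1) * w⌋₊ / 2 ^ n :=
      Nat.floor_div_natCast _ _
    rw [← this]
    congr 1
    push_cast
    rw [pow_succ]
    field_simp
  rw [key y, key y', h]

lemma floor_fract_of {n : ℕ} {y y' : ℝ} (hy : y ∈ Ico (0 : ℝ) 1) (hy' : y' ∈ Ico (0 : ℝ) 1)
    (h : ⌊2 ^ (n + 1) * y⌋₊ = ⌊2 ^ (n + 1) * y'⌋₊) :
    ⌊2 ^ n * Int.fract (2 * y)⌋₊ = ⌊2 ^ n * Int.fract (2 * y')⌋₊ := by
  have h2 := floor_two_of h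
  have key : ∀ w ∈ Ico (0 : ℝ) 1, ⌊2 ^ n * Int.fract (2 * w)⌋₊ =
      ⌊2 ^ (n + 1) * w⌋₊ - 2 ^ n * ⌊2 * w⌋₊ := by
    intro w hw
    rw [fract_two hw]
    have : (2 : ℝ) ^ n * (2 * w - ⌊2 * w⌋₊) = 2 ^ (n + 1) * w - ((2 ^ n * ⌊2 * w⌋₊ : ℕ) : ℝ) := by
      push_cast; ring
    rw [this, Nat.floor_sub_natCast]
  rw [key y hy, key y' hy', h, h2]

theorem tauAff : S_tauAff := by
  intro L
  induction L with
  | nil =>
    refine ⟨1 / 5, by norm_num, fun y hy y' hy' _ => ?_⟩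
    rw [tauL_nil, tauL_nil]
    ring
  | cons d L ih =>
    by_cases hd : d < 3
    · obtain ⟨c, hc, H⟩ := ih
      refine ⟨c / 5, by positivity, fun y hy y' hy' h => ?_⟩
      rw [List.length_cons] at h
      have h1 := floor_two_of h
      have h2 := floor_fract_of hy hy' h
      have h3 := H _ (fract_mem (2 * y)) _ (fract_mem (2 * y')) h2
      rw [tauL_cons_lt hd, tauL_cons_lt hd, ← h1]
      rw [fract_two hy, fract_two hy', ← h1] at h3 ⊢
      linarith
    · refine ⟨1 / 5, by norm_num, fun y hy y' hy' _ => ?_⟩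
      rw [tauL_cons_ge hd, tauL_cons_ge hd]
      ring

lemma measurable_tauL (L : List ℕ) : Measurable (tauL L) := by
  induction L with
  | nil =>
    have : tauL [] = fun y : ℝ => (8 - 2 * y) / 10 := by funext y; rfl
    rw [this]; fun_prop
  | cons d L ih =>
    by_cases hd : d < 3
    · have : tauL (d :: L) = fun y : ℝ =>
          (4 * (d : ℝ) + (⌊2 * y⌋₊ : ℝ) + tauL L (Int.fract (2 * y))) / 10 := by
        funext y; exact tauL_cons_lt hd L y
      rw [this]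
      have h1 : Measurable (fun y : ℝ => ((⌊2 * y⌋₊ : ℕ) : ℝ)) :=
        (Measurable.of_discrete (f := fun n : ℕ => (n : ℝ))).comp
          (Nat.measurable_floor.comp (measurable_const.mul measurable_id))
      have h2 : Measurable (fun y : ℝ => tauL L (Int.fract (2 * y))) :=
        ih.comp (measurable_fract.comp (measurable_const.mul measurable_id))
      exact ((measurable_const.add h1).add h2).div_const _
    · have : tauL (d :: L) = fun y : ℝ => (4 - 2 * y) / 10 := by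
        funext y; exact tauL_cons_ge hd L y
      rw [this]; fun_prop

theorem tauMeas : S_tauMeas := by
  intro hs
  have h1 : Measurable (fun p : ℕ × ℝ => tauL (dec p.1) p.2) :=
    measurable_from_prod_countable_right fun n => measurable_tauL (dec n)
  exact h1.comp (hs.prodMk measurable_id)

end Pool.Agent.Q233.GE
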